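import Pool.Agent.PFR.Submod

/-!
# Convolutions and the Kaimanovich–Vershik inequality
-/

namespace Pool.Agent.PFR

variable {G : Type*} [AddCommGroup G] [Fintype G]

theorem isProb_conv {p q : G → ℝ} (hp : IsProb p) (hq : IsProb q) : IsProb (conv p q) := by
  refine ⟨fun z => ?_, ?_⟩
  · exact Finset.sum_nonneg fun x _ => mul_nonneg (hp.nonneg x) (hq.nonneg _)
  · simp only [conv]
    rw [Finset.sum_comm]
    have : ∀ x, ∑ z, p x * q (z - x) = p x := by
      intro x
      have h1 : ∑ z, q (z - x) = ∑ z, q z := (Equiv.subRight x).sum_comp q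
      rw [← Finset.mul_sum, h1, hq.sum_eq, mul_one]
    simp only [this, hp.sum_eq]

theorem conv_comm (p q : G → ℝ) : conv p q = conv q p := by
  funext z
  simp only [conv]
  rw [← (Equiv.subLeft z).sum_comp]
  refine Finset.sum_congr rfl fun x _ => ?_
  simp only [Equiv.subLeft_apply, sub_sub_cancel]
  rw [mul_comm]

theorem conv_assoc (p q r : G → ℝ) : conv (conv p q) r = conv p (conv q r) := by
  funext z
  simp only [conv]
  have h1 : ∑ y, (∑ w, p w * q (y - w)) * r (z - y) = ∑ y, ∑ w, p w * q (y - w) * r (z - y) :=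
    Finset.sum_congr rfl fun y _ => Finset.sum_mul _ _ _
  rw [h1, Finset.sum_comm]
  refine Finset.sum_congr rfl fun x _ => ?_
  rw [Finset.mul_sum]
  refine (Equiv.sum_comp (Equiv.addRight x) (fun y => p x * q (y - x) * r (z - y))).symm.trans ?_
  refine Finset.sum_congr rfl fun y _ => ?_
  simp only [Equiv.coe_addRight, add_sub_cancel_right]
  rw [show z - (y + x) = z - x - y by abel, mul_assoc]

/-- `law (A+B) z = ∑_a law (A,B) (a, z-a)` -/
theorem law_add {Ω : Type*} [Fintype Ω] {P : Ω → ℝ} (A B : Ω → G)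
    (hI : ∀ a b, law P (fun ω => (A ω, B ω)) (a, b) = law P A a * law P B b) :
    law P (fun ω => A ω + B ω) = conv (law P A) (law P B) := by
  classical
  funext z
  simp only [conv]
  simp only [← hI]
  simp only [law]
  rw [Finset.sum_comm]
  refine Finset.sum_congr rfl fun ω _ => ?_
  rw [Finset.sum_eq_single (A ω)]
  · by_cases h : A ω + B ω = z
    · rw [if_pos h, if_pos]
      rw [← h]
      simp
    · rw [if_neg h, if_neg]
      intro h'
      apply h
      have := (Prod.ext_iff.mp h').2
      simp only at this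
      rw [this]
      simp
  · intro b _ hb
    rw [if_neg]
    intro h'
    exact hb (Prod.ext_iff.mp h').1.symm
  · intro h
    exact absurd (Finset.mem_univ _) h

theorem ent_shift (p : G → ℝ) (c : G) : ent (fun x => p (x - c)) = ent p := by
  simp only [ent]
  exact (Equiv.subRight c).sum_comp (fun x => Real.negMulLog (p x))

theorem conv_shift (p q : G → ℝ) (c : G) :
    conv p (fun x => q (x - c)) = fun z => conv p q (z - c) := by
  funext z
  simp only [conv]
  refine Finset.sum_congr rfl fun x _ => ?_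
  rw [sub_right_comm]

theorem dist_shift (p q : G → ℝ) (c : G) : dist p (fun x => q (x - c)) = dist p q := by
  unfold dist
  rw [conv_shift, ent_shift, ent_shift]

theorem dist_comm (p q : G → ℝ) : dist p q = dist q p := by
  unfold dist
  rw [conv_comm, add_comm]

/-- concavity (Jensen) of `negMulLog`: `conv p q` is the average over `x` with weight `q x` of the translates of `p`
(use `conv_comm`, `ConcaveOn.le_map_sum`, `ent_shift`) -/
theorem ent_le_ent_conv {p q : G → ℝ} (hp : IsProb p) (hq : IsProb q) : ent p ≤ ent (conv p q) := by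
  rw [conv_comm]
  have h1 : ∀ z, ∑ x, q x * Real.negMulLog (p (z - x)) ≤ Real.negMulLog (conv q p z) := by
    intro z
    have := Real.concaveOn_negMulLog.le_map_sum (t := Finset.univ) (w := q)
      (p := fun x => p (z - x)) (fun x _ => hq.nonneg x) hq.sum_eq
      (fun x _ => hp.nonneg _)
    simpa only [smul_eq_mul, conv] using this
  have h2 : ∑ z, ∑ x, q x * Real.negMulLog (p (z - x)) = ent p := by
    rw [Finset.sum_comm]
    have : ∀ x, ∑ z, q x * Real.negMulLog (p (z - x)) = q x * ent p := by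
      intro x
      rw [← Finset.mul_sum]
      congr 1
      exact ent_shift p x
    simp only [this]
    rw [← Finset.sum_mul, hq.sum_eq, one_mul]
  rw [← h2]
  exact Finset.sum_le_sum fun z _ => h1 z

/-- entropy of a product law -/
theorem ent_prod {S T : Type*} [Fintype S] [Fintype T] {a : S → ℝ} {b : T → ℝ}
    (ha : IsProb a) (hb : IsProb b) :
    ent (fun ω : S × T => a ω.1 * b ω.2) = ent a + ent b := by
  simp only [ent]
  rw [Fintype.sum_prod_type]
  simp only [Real.negMulLog_mul, Finset.sum_add_distrib, ← Finset.mul_sum, ← Finset.sum_mul,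
    ha.sum_eq, hb.sum_eq]
  ring

theorem isProb_prod {S T : Type*} [Fintype S] [Fintype T] {a : S → ℝ} {b : T → ℝ}
    (ha : IsProb a) (hb : IsProb b) : IsProb (fun ω : S × T => a ω.1 * b ω.2) := by
  refine ⟨fun ω => mul_nonneg (ha.nonneg _) (hb.nonneg _), ?_⟩
  rw [Fintype.sum_prod_type]
  simp only [← Finset.mul_sum, hb.sum_eq, mul_one, ha.sum_eq]

/-- the law of the pair `(X, Y+Z)` -/
theorem law_kv1 (p q r : G → ℝ) :
    law (fun ω : G × G × G => p ω.1 * (q ω.2.1 * r ω.2.2)) (fun ω => (ω.1, ω.2.1 + ω.2.2)) =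
      fun s : G × G => p s.1 * conv q r s.2 := by
  classical
  funext s
  obtain ⟨a, b⟩ := s
  simp only [law, Fintype.sum_prod_type, conv]
  rw [Finset.sum_eq_single a]
  · rw [Finset.mul_sum]
    refine Finset.sum_congr rfl fun y _ => ?_
    rw [Finset.sum_eq_single (b - y)]
    · rw [if_pos]
      simp
    · intro z _ hz
      rw [if_neg]
      intro h
      apply hz
      have := (Prod.ext_iff.mp h).2
      simp only at this
      rw [← this]
      simp
    · intro h
      exact absurd (Finset.mem_univ _) h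
  · intro x _ hx
    refine Finset.sum_eq_zero fun y _ => Finset.sum_eq_zero fun z _ => ?_
    rw [if_neg]
    intro h
    exact hx (Prod.ext_iff.mp h).1
  · intro h
    exact absurd (Finset.mem_univ _) h

/-- the law of the pair `(Z, X+Y)` -/
theorem law_kv2 (p q r : G → ℝ) :
    law (fun ω : G × G × G => p ω.1 * (q ω.2.1 * r ω.2.2)) (fun ω => (ω.2.2, ω.1 + ω.2.1)) =
      fun s : G × G => r s.1 * conv p q s.2 := by
  classical
  funext s
  obtain ⟨a, b⟩ := s
  simp only [law, Fintype.sum_prod_type, conv]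
  rw [Finset.mul_sum]
  refine Finset.sum_congr rfl fun x _ => ?_
  rw [Finset.sum_eq_single (b - x)]
  · rw [Finset.sum_eq_single a]
    · rw [if_pos]
      · ring
      · simp
    · intro z _ hz
      rw [if_neg]
      intro h
      exact hz (Prod.ext_iff.mp h).1
    · intro h
      exact absurd (Finset.mem_univ _) h
  · intro y _ hy
    refine Finset.sum_eq_zero fun z _ => ?_
    rw [if_neg]
    intro h
    apply hy
    have := (Prod.ext_iff.mp h).2
    simp only at this
    rw [← this]
    simp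
  · intro h
    exact absurd (Finset.mem_univ _) h

/-- the law of the sum of three -/
theorem law_kv3 (p q r : G → ℝ) :
    law (fun ω : G × G × G => p ω.1 * (q ω.2.1 * r ω.2.2)) (fun ω => ω.1 + (ω.2.1 + ω.2.2)) =
      conv p (conv q r) := by
  classical
  have h := law_comp (fun ω : G × G × G => p ω.1 * (q ω.2.1 * r ω.2.2))
    (fun ω => (ω.1, ω.2.1 + ω.2.2)) (fun s : G × G => s.1 + s.2)
  rw [← h, law_kv1]
  funext z
  simp only [law, Fintype.sum_prod_type]
  rw [conv]
  refine Finset.sum_congr rfl fun x _ => ?_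
  rw [Finset.sum_eq_single (z - x)]
  · rw [if_pos]
    simp
  · intro y _ hy
    rw [if_neg]
    intro h
    apply hy
    rw [← h]
    simp
  · intro h
    exact absurd (Finset.mem_univ _) h

/-- Kaimanovich–Vershik.  On `Ω = G × G × G` with weight `p x * q y * r z` (`X, Y, Z` independent) use `H_submod` with
`X' = X`, `Y' = Z`, `Z' = X+Y+Z`: `H(X,Z,X+Y+Z) + H(X+Y+Z) ≤ H(X,X+Y+Z) + H(Z,X+Y+Z)`; here `H(X,Z,X+Y+Z)=H(X,Y,Z)=ent p+ent q+ent r`,
`H(X,X+Y+Z) = H(X,Y+Z) = ent p + ent (conv q r)`, `H(Z,X+Y+Z)=H(Z,X+Y)= ent r + ent (conv p q)` (`H_eq_of_ker`, `H_pair_indep`). -/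
theorem kv {p q r : G → ℝ} (hp : IsProb p) (hq : IsProb q) (hr : IsProb r) :
    ent (conv p (conv q r)) + ent q ≤ ent (conv p q) + ent (conv q r) := by
  classical
  set P : G × G × G → ℝ := fun ω => p ω.1 * (q ω.2.1 * r ω.2.2) with hPdef
  have hP : IsProb P := isProb_prod hp (isProb_prod hq hr)
  have h0 := H_submod hP (fun ω => ω.1) (fun ω => ω.2.2) (fun ω => ω.1 + (ω.2.1 + ω.2.2))
  have hA : H P (fun ω => (ω.1, ω.2.2, ω.1 + (ω.2.1 + ω.2.2))) = ent p + (ent q + ent r) := by
    rw [H_eq_of_ker P _ (fun ω => ω), H_id]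
    · rw [← ent_prod hq hr, ← ent_prod hp (isProb_prod hq hr)]
    · intro ω ω' _ _
      obtain ⟨x, y, z⟩ := ω
      obtain ⟨x', y', z'⟩ := ω'
      simp only [Prod.mk.injEq]
      constructor
      · rintro ⟨h1, h2, h3⟩
        subst h1
        subst h2
        refine ⟨rfl, ?_, rfl⟩
        exact add_right_cancel (add_left_cancel h3)
      · rintro ⟨h1, h2, h3⟩
        subst h1
        subst h2
        subst h3
        exact ⟨rfl, rfl, rfl⟩
  have hB : H P (fun ω => ω.1 + (ω.2.1 + ω.2.2)) = ent (conv p (conv q r)) := by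
    rw [H, law_kv3]
  have hC : H P (fun ω => (ω.1, ω.1 + (ω.2.1 + ω.2.2))) = ent p + ent (conv q r) := by
    rw [H_eq_of_ker P _ (fun ω => (ω.1, ω.2.1 + ω.2.2)), H, law_kv1,
      ent_prod hp (isProb_conv hq hr)]
    intro ω ω' _ _
    obtain ⟨x, y, z⟩ := ω
    obtain ⟨x', y', z'⟩ := ω'
    simp only [Prod.mk.injEq]
    constructor
    · rintro ⟨h1, h2⟩
      subst h1
      exact ⟨rfl, add_left_cancel h2⟩
    · rintro ⟨h1, h2⟩
      subst h1
      exact ⟨rfl, by rw [h2]⟩
  have hD : H P (fun ω => (ω.2.2, ω.1 + (ω.2.1 + ω.2.2))) = ent r + ent (conv p q) := by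
    rw [H_eq_of_ker P _ (fun ω => (ω.2.2, ω.1 + ω.2.1)), H, law_kv2,
      ent_prod hr (isProb_conv hp hq)]
    intro ω ω' _ _
    obtain ⟨x, y, z⟩ := ω
    obtain ⟨x', y', z'⟩ := ω'
    simp only [Prod.mk.injEq, ← add_assoc]
    constructor
    · rintro ⟨h1, h2⟩
      subst h1
      exact ⟨rfl, add_right_cancel h2⟩
    · rintro ⟨h1, h2⟩
      subst h1
      exact ⟨rfl, by rw [h2]⟩
  rw [hA, hB, hC, hD] at h0
  linarith

/-- (L1): immediate from `kv` -/
theorem dist_conv_le {p q r : G → ℝ} (hp : IsProb p) (hq : IsProb q) (hr : IsProb r) :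
    dist p (conv q r) ≤ dist p q + (ent (conv q r) - ent q) / 2 := by
  have h := kv hp hq hr
  unfold dist
  linarith

theorem dist_nonneg {p q : G → ℝ} (hp : IsProb p) (hq : IsProb q) : 0 ≤ dist p q := by
  have h1 := ent_le_ent_conv hp hq
  have h2 := ent_le_ent_conv hq hp
  rw [conv_comm] at h2
  unfold dist
  linarith

end Pool.Agent.PFR
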