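import Pool.Agent.PFR.Bsg
import Pool.Agent.PFR.Conv

/-!
# The entropic Balog–Szemerédi–Gowers inequality, unconditional form
-/

namespace Pool.Agent.PFR

variable {Ω S J G : Type*} [Fintype Ω] [Fintype S] [Fintype J] [AddCommGroup G] [Fintype G]

theorem law_unit (P : Ω → ℝ) (C : Ω → J) (c : J) (u : Unit) :
    law P (fun ω => (C ω, ())) (c, u) = law P C c := by
  classical
  unfold law
  apply Finset.sum_congr rfl
  intro ω _
  congr 1
  simp

theorem cnd_unit (P : Ω → ℝ) (C : Ω → J) (c : J) (u : Unit) :
    cnd P (fun ω => (C ω, ())) (c, u) = cnd P C c := by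
  classical
  funext ω
  unfold cnd
  rw [law_unit]
  congr 1
  simp

theorem dcond_unit (P : Ω → ℝ) (A B : Ω → G) (C : Ω → J) :
    dcond P A B (fun ω => (C ω, ())) = dcond P A B C := by
  classical
  unfold dcond
  rw [Fintype.sum_prod_type]
  apply Finset.sum_congr rfl
  intro c _
  simp only [Finset.univ_unique, Finset.sum_singleton, law_unit, cnd_unit]

theorem H_unit (P : Ω → ℝ) (X : Ω → S) : H P (fun ω => (X ω, ())) = H P X := by
  apply H_eq_of_ker
  intro ω ω' _ _
  simp

/-- (BSG), unconditional -/
theorem dcond_bsg0 (h2 : ∀ x : G, x + x = 0) {P : Ω → ℝ} (hP : IsProb P) (A B : Ω → G) :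
    dcond P A B (fun ω => A ω + B ω) ≤
      2 * H P A + 2 * H P B + 2 * H P (fun ω => A ω + B ω) - 3 * H P (fun ω => (A ω, B ω)) := by
  have h := dcond_bsg h2 hP A B (fun _ => ())
  rw [dcond_unit P A B (fun ω => A ω + B ω), H_unit P A, H_unit P B, H_unit P (fun ω => A ω + B ω),
    H_const hP] at h
  have e : H P (fun ω => (A ω, B ω, ())) = H P (fun ω => (A ω, B ω)) := by
    apply H_eq_of_ker
    intro ω ω' _ _
    simp
  rw [e] at h
  linarith

/-- `A` and `B = z + A` given `A + B = z`: the two conditional laws are translates of each other -/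
theorem dcond_self (h2 : ∀ x : G, x + x = 0) (P : Ω → ℝ) (A B : Ω → G) :
    dcond P A B (fun ω => A ω + B ω) =
      ∑ z, law P (fun ω => A ω + B ω) z *
        dist (law (cnd P (fun ω => A ω + B ω) z) A) (law (cnd P (fun ω => A ω + B ω) z) A) := by
  classical
  unfold dcond
  apply Finset.sum_congr rfl
  intro z _
  congr 1
  have : law (cnd P (fun ω => A ω + B ω) z) B =
      fun x => law (cnd P (fun ω => A ω + B ω) z) A (x - z) := by
    funext x
    unfold law
    apply Finset.sum_congr rfl
    intro ω _
    by_cases hz : A ω + B ω = z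
    · have : (B ω = x) ↔ (A ω = x - z) := by
        have hA : A ω = z - B ω := by rw [← hz]; abel
        have h3 : ∀ y : G, -y = y := fun y => by
          rw [neg_eq_iff_add_eq_zero]; exact h2 y
        rw [hA]
        constructor
        · intro h
          rw [h, ← neg_sub x z, h3]
        · intro h
          have : z - B ω = z - x := by rw [h, ← neg_sub z x, h3]
          exact sub_right_injective this
      simp only [this]
    · have : cnd P (fun ω => A ω + B ω) z ω = 0 := by
        unfold cnd
        rw [if_neg hz]
      simp [this]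
  rw [this, dist_shift]

end Pool.Agent.PFR
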