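import Pool.Agent.PFR.Submod

/-!
# Conditional laws
-/

namespace Pool.Agent.PFR

variable {Ω S J : Type*} [Fintype Ω] [Fintype S] [Fintype J]

theorem isProb_cnd {P : Ω → ℝ} (hP : IsProb P) (C : Ω → J) {c : J} (hc : law P C c ≠ 0) :
    IsProb (cnd P C c) := by
  classical
  constructor
  · intro ω
    unfold cnd
    split_ifs
    · exact div_nonneg (hP.nonneg ω) (law_nonneg hP C c)
    · exact le_refl _
  · have h1 : ∀ ω, cnd P C c ω = (if C ω = c then P ω else 0) / law P C c := by
      intro ω
      unfold cnd
      split_ifs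
      · rfl
      · rw [zero_div]
    rw [Finset.sum_congr rfl fun ω _ => h1 ω, ← Finset.sum_div]
    have h2 : (∑ ω, if C ω = c then P ω else 0) = law P C c := by
      unfold law
      refine Finset.sum_congr rfl fun ω _ => ?_
      split_ifs <;> rfl
    rw [h2, div_self hc]

omit [Fintype J] in
private theorem cnd_nonneg_aux {P : Ω → ℝ} (hP : IsProb P) (C : Ω → J) (c : J) (ω : Ω) :
    0 ≤ cnd P C c ω := by
  classical
  unfold cnd
  split_ifs
  · exact div_nonneg (hP.nonneg ω) (law_nonneg hP C c)
  · exact le_refl _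

omit [Fintype S] [Fintype J] in
private theorem law_cnd_nonneg_aux {P : Ω → ℝ} (hP : IsProb P) (A : Ω → S) (C : Ω → J) (c : J)
    (a : S) : 0 ≤ law (cnd P C c) A a := by
  classical
  unfold law
  refine Finset.sum_nonneg fun ω _ => ?_
  split_ifs
  · exact cnd_nonneg_aux hP C c ω
  · exact le_refl _

/-- if `law P C c = 0` then `P ω = 0` for all `ω` with `C ω = c`, both sides are `0` -/
theorem law_mul_law_cnd {P : Ω → ℝ} (hP : IsProb P) (A : Ω → S) (C : Ω → J) (c : J) (a : S) :
    law P C c * law (cnd P C c) A a = law P (fun ω => (A ω, C ω)) (a, c) := by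
  classical
  have h1 : law (cnd P C c) A a = ∑ ω, if A ω = a then cnd P C c ω else 0 := by
    unfold law
    refine Finset.sum_congr rfl fun ω _ => ?_
    split_ifs <;> rfl
  have h2 : law P (fun ω => (A ω, C ω)) (a, c) =
      ∑ ω, if (A ω, C ω) = (a, c) then P ω else 0 := by
    unfold law
    refine Finset.sum_congr rfl fun ω _ => ?_
    split_ifs <;> rfl
  rw [h1, h2, Finset.mul_sum]
  refine Finset.sum_congr rfl fun ω _ => ?_
  by_cases hA : A ω = a
  · by_cases hC : C ω = c
    · rw [if_pos hA, if_pos (by rw [hA, hC])]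
      unfold cnd
      rw [if_pos hC]
      by_cases hL : law P C c = 0
      · by_cases hPω : P ω = 0
        · rw [hPω]
          simp
        · exfalso
          have h3 := law_pos hP C hPω
          rw [hC, hL] at h3
          exact lt_irrefl _ h3
      · rw [mul_div_cancel₀ _ hL]
    · rw [if_pos hA, if_neg (fun h => hC (Prod.mk.inj h).2)]
      unfold cnd
      rw [if_neg hC, mul_zero]
  · rw [if_neg hA, if_neg (fun h => hA (Prod.mk.inj h).1), mul_zero]

/-- Let `L = law P C c`, `m a = law (cnd P C c) a`; then `law P (A,C) (a,c) = L * m a` (`law_mul_law_cnd`) and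
`negMulLog (L * m a) = m a * negMulLog L + L * negMulLog (m a)`; `∑ a, m a = 1` if `L ≠ 0`. Sum over `a`, then `c`. -/
theorem chain_rule {P : Ω → ℝ} (hP : IsProb P) (A : Ω → S) (C : Ω → J) :
    ∑ c, law P C c * H (cnd P C c) A = H P (fun ω => (A ω, C ω)) - H P C := by
  classical
  have h1 : H P (fun ω => (A ω, C ω)) =
      ∑ c, ∑ a, Real.negMulLog (law P C c * law (cnd P C c) A a) := by
    unfold H ent
    rw [Fintype.sum_prod_type, Finset.sum_comm]
    refine Finset.sum_congr rfl fun c _ => Finset.sum_congr rfl fun a _ => ?_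
    rw [law_mul_law_cnd hP A C c a]
  have h2 : H P C = ∑ c, Real.negMulLog (law P C c) := rfl
  rw [h1, h2, ← Finset.sum_sub_distrib]
  refine Finset.sum_congr rfl fun c _ => ?_
  have h3 : ∑ a, Real.negMulLog (law P C c * law (cnd P C c) A a) =
      (∑ a, law (cnd P C c) A a) * Real.negMulLog (law P C c) +
        law P C c * H (cnd P C c) A := by
    unfold H ent
    rw [Finset.sum_mul, Finset.mul_sum, ← Finset.sum_add_distrib]
    refine Finset.sum_congr rfl fun a _ => ?_
    rw [Real.negMulLog_mul]
  rw [h3]
  by_cases hL : law P C c = 0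
  · rw [hL]
    simp
  · rw [(isProb_law (isProb_cnd hP C hL) A).sum_eq]
    ring

variable {G : Type*} [AddCommGroup G] [Fintype G]

omit [Fintype S] in
private theorem law_eq_sum_aux {P : Ω → ℝ} (hP : IsProb P) (A : Ω → S) (C : Ω → J) (a : S) :
    law P A a = ∑ c, law P C c * law (cnd P C c) A a := by
  classical
  have h1 : ∀ c, law P C c * law (cnd P C c) A a =
      ∑ ω, if (A ω, C ω) = (a, c) then P ω else 0 := by
    intro c
    have h3 : law (cnd P C c) A a = ∑ ω, if A ω = a then cnd P C c ω else 0 := by
      unfold law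
      refine Finset.sum_congr rfl fun ω _ => ?_
      split_ifs <;> rfl
    rw [h3, Finset.mul_sum]
    refine Finset.sum_congr rfl fun ω _ => ?_
    by_cases hA : A ω = a
    · by_cases hC : C ω = c
      · rw [if_pos hA, if_pos (by rw [hA, hC])]
        unfold cnd
        rw [if_pos hC]
        by_cases hL : law P C c = 0
        · by_cases hPω : P ω = 0
          · rw [hPω]
            simp
          · exfalso
            have h3 := law_pos hP C hPω
            rw [hC, hL] at h3
            exact lt_irrefl _ h3
        · rw [mul_div_cancel₀ _ hL]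
      · rw [if_pos hA, if_neg (fun h => hC (Prod.mk.inj h).2)]
        unfold cnd
        rw [if_neg hC, mul_zero]
    · rw [if_neg hA, if_neg (fun h => hA (Prod.mk.inj h).1), mul_zero]
  rw [Finset.sum_congr rfl fun c _ => h1 c, Finset.sum_comm]
  unfold law
  refine Finset.sum_congr rfl fun ω _ => ?_
  by_cases hA : A ω = a
  · rw [if_pos hA, Finset.sum_eq_single (C ω)]
    · rw [if_pos (by rw [hA])]
    · intro c _ hc
      rw [if_neg (fun h => hc (Prod.mk.inj h).2.symm)]
    · intro h
      exact absurd (Finset.mem_univ _) h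
  · rw [if_neg hA]
    symm
    refine Finset.sum_eq_zero fun c _ => ?_
    rw [if_neg (fun h => hA (Prod.mk.inj h).1)]

/-- (L3).  With `L c = law P C c`, `m c = law (cnd P C c) A`: `law P A = ∑ c, L c * m c` (pointwise), hence
`conv p (law P A) z = ∑ c, L c * conv p (m c) z` and by concavity of `negMulLog` on `[0, ∞)` (`Real.concaveOn_negMulLog`,
`ConcaveOn.le_map_sum`) `∑ c, L c * ent (conv p (m c)) ≤ ent (conv p (law P A))`.  Then use `chain_rule` for `∑ c, L c * ent (m c)`
and `∑ c, L c = 1`. (Terms with `L c = 0` are harmless.) -/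
theorem dref_le {p : G → ℝ} (hp : IsProb p) {P : Ω → ℝ} (hP : IsProb P) (A : Ω → G) (C : Ω → J) :
    dref p P A C ≤ dist p (law P A) + (H P A + H P C - H P (fun ω => (A ω, C ω))) / 2 := by
  classical
  have hconv : ∀ z, conv p (law P A) z =
      ∑ c, law P C c • conv p (law (cnd P C c) A) z := by
    intro z
    unfold conv
    simp only [smul_eq_mul, Finset.mul_sum]
    rw [Finset.sum_comm]
    refine Finset.sum_congr rfl fun x _ => ?_
    rw [law_eq_sum_aux hP A C (z - x), Finset.mul_sum]
    refine Finset.sum_congr rfl fun c _ => ?_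
    ring
  have hsum : ∑ c, law P C c = 1 := (isProb_law hP C).sum_eq
  have hjen : ∑ c, law P C c * ent (conv p (law (cnd P C c) A)) ≤ ent (conv p (law P A)) := by
    unfold ent
    simp only [Finset.mul_sum]
    rw [Finset.sum_comm]
    refine Finset.sum_le_sum fun z _ => ?_
    rw [hconv z]
    refine Real.concaveOn_negMulLog.le_map_sum (fun c _ => law_nonneg hP C c) hsum ?_
    intro c _
    rw [Set.mem_Ici]
    unfold conv
    refine Finset.sum_nonneg fun x _ => ?_
    exact mul_nonneg (hp.nonneg x) (law_cnd_nonneg_aux hP A C c _)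
  have hch := chain_rule hP A C
  have hexp : dref p P A C = ∑ c, law P C c * ent (conv p (law (cnd P C c) A)) -
      ent p / 2 - (∑ c, law P C c * H (cnd P C c) A) / 2 := by
    have h1 : ent p / 2 = ∑ c, law P C c * (ent p / 2) := by
      rw [← Finset.sum_mul, hsum, one_mul]
    rw [h1, Finset.sum_div, ← Finset.sum_sub_distrib, ← Finset.sum_sub_distrib]
    unfold dref dist H
    refine Finset.sum_congr rfl fun c _ => ?_
    ring
  rw [hexp, hch]
  unfold dist
  have : H P A = ent (law P A) := rfl
  rw [this]
  linarith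

end Pool.Agent.PFR
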