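import Pool.Agent.PFR.Pfr

/-!
# Increment lemma
-/

namespace Pool.Agent.PFR

variable {G : Type*} [AddCommGroup G] [Fintype G]

open Classical in
/-- sum of `w` over the coset `x + V` -/
noncomputable def csum (V : AddSubgroup G) (w : G → ℝ) (x : G) : ℝ :=
  ∑ y, if y - x ∈ V then w y else 0

/-- `conv q (unif V) x = csum V q x / |V|` -/
theorem conv_unif (V : AddSubgroup G) (q : G → ℝ) (x : G) :
    conv q (unif V) x = csum V q x / (Nat.card V : ℝ) := by
  classical
  unfold conv csum unif
  rw [Finset.sum_div]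
  refine Finset.sum_congr rfl fun y _ => ?_
  have h : (x - y ∈ V) ↔ (y - x ∈ V) := by
    rw [← neg_mem_iff, neg_sub]
  by_cases hy : y - x ∈ V
  · rw [if_pos hy, if_pos (h.2 hy)]
    ring
  · rw [if_neg hy, if_neg (fun hh => hy (h.1 hh))]
    simp

/-- `csum V f` is constant on cosets -/
theorem csum_congr (V : AddSubgroup G) (f : G → ℝ) {x y : G} (h : y - x ∈ V) :
    csum V f y = csum V f x := by
  classical
  unfold csum
  refine Finset.sum_congr rfl fun z _ => ?_
  have h2 : (z - y ∈ V) ↔ (z - x ∈ V) := by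
    constructor
    · intro hz
      have := V.add_mem hz h
      simpa using this
    · intro hz
      have := V.sub_mem hz h
      simpa using this
  by_cases hz : z - x ∈ V
  · rw [if_pos hz, if_pos (h2.2 hz)]
  · rw [if_neg hz, if_neg (fun hh => hz (h2.1 hh))]

/-- the number of points of a coset -/
theorem csum_one (V : AddSubgroup G) (x : G) : csum V (fun _ => (1 : ℝ)) x = (Nat.card V : ℝ) := by
  classical
  unfold csum
  rw [Finset.sum_ite, Finset.sum_const_zero, add_zero, Finset.sum_const, nsmul_eq_mul, mul_one]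
  congr 1
  rw [Nat.card_eq_fintype_card, Fintype.card_subtype]
  refine Finset.card_bij (fun a _ => a - x) ?_ ?_ ?_
  · intro a ha
    simpa using ha
  · intro a _ b _ hab
    simpa using hab
  · intro b hb
    refine ⟨b + x, ?_, ?_⟩
    · simpa using hb
    · simp

theorem card_pos' (V : AddSubgroup G) : (0 : ℝ) < (Nat.card V : ℝ) := by
  have : 0 < Nat.card V := Nat.card_pos
  exact_mod_cast this

/-- exchange of sums -/
theorem sum_csum_mul (V : AddSubgroup G) (f g : G → ℝ) :
    ∑ x, csum V f x * g x = ∑ x, f x * csum V g x := by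
  classical
  unfold csum
  simp_rw [Finset.sum_mul, Finset.mul_sum]
  rw [Finset.sum_comm]
  refine Finset.sum_congr rfl fun y _ => Finset.sum_congr rfl fun x _ => ?_
  have h : (x - y ∈ V) ↔ (y - x ∈ V) := by
    rw [← neg_mem_iff, neg_sub]
  by_cases hy : y - x ∈ V
  · rw [if_pos hy, if_pos (h.2 hy)]
  · rw [if_neg hy, if_neg (fun hh => hy (h.1 hh))]
    simp

theorem csum_mul_of_const (V : AddSubgroup G) (f g : G → ℝ)
    (hg : ∀ x y, y - x ∈ V → g y = g x) (x : G) :
    csum V (fun y => f y * g y) x = csum V f x * g x := by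
  classical
  unfold csum
  rw [Finset.sum_mul]
  refine Finset.sum_congr rfl fun y _ => ?_
  by_cases hy : y - x ∈ V
  · simp only [if_pos hy, hg x y hy]
  · simp only [if_neg hy, zero_mul]

theorem csum_nonneg (V : AddSubgroup G) {f : G → ℝ} (hf : ∀ x, 0 ≤ f x) (x : G) :
    0 ≤ csum V f x := by
  classical
  unfold csum
  refine Finset.sum_nonneg fun y _ => ?_
  split_ifs
  · exact hf y
  · exact le_rfl

theorem le_csum (V : AddSubgroup G) {f : G → ℝ} (hf : ∀ x, 0 ≤ f x) (x : G) :
    f x ≤ csum V f x := by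
  classical
  unfold csum
  have := Finset.single_le_sum (f := fun y => if y - x ∈ V then f y else 0)
    (fun y _ => by split_ifs; exacts [hf y, le_rfl]) (Finset.mem_univ x)
  simpa using this

/-- `ent (conv q (unif V)) = log |V| - ∑ x, q x log (csum V q x)`: with `u x = csum V q x / |V|` (constant on cosets),
`∑ x, u x log u x = (1/|V|) ∑_x ∑_y [y - x ∈ V] q y log u y = ∑_y q y log u y`. -/
theorem ent_conv_unif (V : AddSubgroup G) {q : G → ℝ} (hq : IsProb q) :
    ent (conv q (unif V)) = Real.log (Nat.card V) - ∑ x, q x * Real.log (csum V q x) := by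
  classical
  have hN := card_pos' V
  unfold ent
  have h1 : ∀ x, Real.negMulLog (conv q (unif V) x) =
      csum V q x * (-(Real.log (csum V q x / (Nat.card V : ℝ))) / (Nat.card V : ℝ)) := by
    intro x
    rw [conv_unif, Real.negMulLog]
    ring
  rw [Finset.sum_congr rfl fun x _ => h1 x, sum_csum_mul]
  have h2 : ∀ x, q x * csum V
      (fun x => -(Real.log (csum V q x / (Nat.card V : ℝ))) / (Nat.card V : ℝ)) x =
      q x * Real.log (Nat.card V : ℝ) - q x * Real.log (csum V q x) := by
    intro x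
    have h3 := csum_mul_of_const V (fun _ => (1 : ℝ))
      (fun x => -(Real.log (csum V q x / (Nat.card V : ℝ))) / (Nat.card V : ℝ))
      (fun a b hab => by rw [csum_congr V q hab]) x
    rw [csum_one] at h3
    simp only [one_mul] at h3
    rw [h3]
    rcases eq_or_ne (q x) 0 with h0 | h0
    · simp [h0]
    · have hpos : 0 < csum V q x :=
        lt_of_lt_of_le (lt_of_le_of_ne (hq.nonneg x) (Ne.symm h0)) (le_csum V hq.nonneg x)
      rw [Real.log_div hpos.ne' hN.ne']
      field_simp
      ring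
  rw [Finset.sum_congr rfl fun x _ => h2 x, Finset.sum_sub_distrib, ← Finset.sum_mul, hq.sum_eq,
    one_mul]

theorem ent_unif (V : AddSubgroup G) : ent (unif V) = Real.log (Nat.card V) := by
  classical
  have hN := card_pos' V
  unfold ent
  have h1 : ∀ x, Real.negMulLog (unif V x) =
      (if x - 0 ∈ V then (1 : ℝ) else 0) * (Real.log (Nat.card V : ℝ) / (Nat.card V : ℝ)) := by
    intro x
    unfold unif
    rw [sub_zero]
    by_cases hx : x ∈ V
    · rw [if_pos hx, if_pos hx, Real.negMulLog, Real.log_div one_ne_zero hN.ne', Real.log_one]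
      ring
    · rw [if_neg hx, if_neg hx]
      simp
  rw [Finset.sum_congr rfl fun x _ => h1 x, ← Finset.sum_mul]
  have h2 := csum_one V (0 : G)
  unfold csum at h2
  have h3 : (∑ x : G, if x - 0 ∈ V then (1 : ℝ) else 0) = (Nat.card V : ℝ) := by
    rw [← h2]
  rw [h3]
  field_simp

/-- chain rule and Gibbs for the cosets of a subgroup: the weight `v x = w x * csum V q x / csum V w x` has sum `≤ 1`
(`∑_x v x = ∑_y q y * ∑_x [x - y ∈ V] w x / csum V w y ≤ ∑_y q y`), apply `gibbs` (log of a product, all factors are positive where `q x ≠ 0`) -/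
theorem coset_gibbs (V : AddSubgroup G) {q w : G → ℝ} (hq : IsProb q) (hw : ∀ x, 0 ≤ w x)
    (hs : ∀ x, q x ≠ 0 → w x ≠ 0) :
    ent q + ∑ x, q x * Real.log (w x) + ∑ x, q x * Real.log (csum V q x) ≤
      ∑ x, q x * Real.log (csum V w x) := by
  classical
  have hqpos : ∀ x, q x ≠ 0 → 0 < q x := fun x hx => lt_of_le_of_ne (hq.nonneg x) (Ne.symm hx)
  have hwpos : ∀ x, q x ≠ 0 → 0 < w x := fun x hx => lt_of_le_of_ne (hw x) (Ne.symm (hs x hx))
  have hcq : ∀ x, q x ≠ 0 → 0 < csum V q x := fun x hx =>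
    lt_of_lt_of_le (hqpos x hx) (le_csum V hq.nonneg x)
  have hcw : ∀ x, q x ≠ 0 → 0 < csum V w x := fun x hx =>
    lt_of_lt_of_le (hwpos x hx) (le_csum V hw x)
  set v : G → ℝ := fun x => w x * csum V q x / csum V w x with hv
  have hv0 : ∀ x, 0 ≤ v x := fun x =>
    div_nonneg (mul_nonneg (hw x) (csum_nonneg V hq.nonneg x)) (csum_nonneg V hw x)
  have hvs : ∀ x, q x ≠ 0 → v x ≠ 0 := fun x hx =>
    (div_pos (mul_pos (hwpos x hx) (hcq x hx)) (hcw x hx)).ne'
  have hv1 : ∑ x, v x ≤ 1 := by
    have h1 : ∑ x, v x = ∑ x, csum V q x * (w x * (csum V w x)⁻¹) := by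
      refine Finset.sum_congr rfl fun x _ => ?_
      rw [hv]
      ring
    rw [h1, sum_csum_mul]
    have h2 : ∀ x, q x * csum V (fun x => w x * (csum V w x)⁻¹) x ≤ q x := by
      intro x
      have h3 := csum_mul_of_const V w (fun x => (csum V w x)⁻¹)
        (fun a b hab => by rw [csum_congr V w hab]) x
      rw [h3]
      have h4 : csum V w x * (csum V w x)⁻¹ ≤ 1 := by
        rcases eq_or_ne (csum V w x) 0 with h0 | h0
        · rw [h0]; simp
        · rw [mul_inv_cancel₀ h0]
      calc q x * (csum V w x * (csum V w x)⁻¹) ≤ q x * 1 :=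
            mul_le_mul_of_nonneg_left h4 (hq.nonneg x)
        _ = q x := mul_one _
    calc ∑ x, q x * csum V (fun x => w x * (csum V w x)⁻¹) x ≤ ∑ x, q x :=
          Finset.sum_le_sum fun x _ => h2 x
      _ = 1 := hq.sum_eq
  have hg := gibbs hq v hv0 hv1 hvs
  have h5 : ∀ x, q x * Real.log (v x) =
      q x * Real.log (w x) + q x * Real.log (csum V q x) - q x * Real.log (csum V w x) := by
    intro x
    rcases eq_or_ne (q x) 0 with h0 | h0
    · simp [h0]
    · rw [hv]
      simp only
      rw [Real.log_div (mul_pos (hwpos x h0) (hcq x h0)).ne' (hcw x h0).ne',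
        Real.log_mul (hwpos x h0).ne' (hcq x h0).ne']
      ring
  rw [Finset.sum_congr rfl fun x _ => h5 x, Finset.sum_sub_distrib, Finset.sum_add_distrib] at hg
  linarith

/-- **Lemma INC** -/
theorem inc (h2 : ∀ x : G, x + x = 0) {q w : G → ℝ} (hq : IsProb q) (hw : ∀ x, 0 ≤ w x)
    (hs : ∀ x, q x ≠ 0 → w x ≠ 0) :
    ∃ (V : AddSubgroup G) (x : G), q x ≠ 0 ∧ 0 < csum V w x ∧
      Real.log (Nat.card V) - 2 * Real.log (csum V w x) ≤
        - 2 * ∑ x, q x * Real.log (w x) - ent q + 11 * dist q q := by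
  obtain ⟨V, hV⟩ := pfr_self h2 hq
  have h1 := ent_conv_unif V hq
  have h3 := coset_gibbs V hq hw hs
  have hd : dist q (unif V) = ent (conv q (unif V)) - (ent q + Real.log (Nat.card V)) / 2 := by
    rw [dist, ent_unif]
  -- some point is at least the average
  have hex : ∃ x, q x ≠ 0 ∧ ∑ x, q x * Real.log (csum V w x) ≤ Real.log (csum V w x) := by
    by_contra hcon
    push Not at hcon
    obtain ⟨x0, hx0⟩ : ∃ x, q x ≠ 0 := by
      by_contra h
      push Not at h
      have := hq.sum_eq
      simp [h] at this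
    obtain ⟨M, hM⟩ : ∃ M, M = ∑ x, q x * Real.log (csum V w x) := ⟨_, rfl⟩
    rw [← hM] at hcon
    have : ∑ x, q x * Real.log (csum V w x) < ∑ x, q x * M := by
      apply Finset.sum_lt_sum
      · intro x _
        rcases eq_or_ne (q x) 0 with h | h
        · simp [h]
        · exact mul_le_mul_of_nonneg_left (hcon x h).le (hq.nonneg x)
      · exact ⟨x0, Finset.mem_univ _, mul_lt_mul_of_pos_left (hcon x0 hx0)
          (lt_of_le_of_ne (hq.nonneg x0) (Ne.symm hx0))⟩
    rw [← Finset.sum_mul, hq.sum_eq, one_mul, ← hM] at this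
    exact lt_irrefl _ this
  obtain ⟨x, hx, hx2⟩ := hex
  refine ⟨V, x, hx, ?_, ?_⟩
  · classical
    have hwx : 0 < w x := lt_of_le_of_ne (hw x) (Ne.symm (hs x hx))
    unfold csum
    refine lt_of_lt_of_le hwx ?_
    have := Finset.single_le_sum (f := fun y => if y - x ∈ V then w y else 0)
      (fun y _ => by split_ifs; exacts [hw y, le_rfl]) (Finset.mem_univ x)
    simpa using this
  · linarith

end Pool.Agent.PFR
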