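import Pool.Agent.PFR.Copies

/-!
# The entropic Balog–Szemerédi–Gowers inequality
-/

namespace Pool.Agent.PFR

variable {Ω J G : Type*} [Fintype Ω] [Fintype J] [AddCommGroup G] [Fintype G]

private theorem H_cp_fst {S : Type*} [Fintype S] {P : Ω → ℝ} (hP : IsProb P) {J' : Type*} [Fintype J'] (C : Ω → J')
    (X : Ω → S) : H (cp P C) (fun ω => X ω.1) = H P X := by
  unfold H
  rw [law_cp_fst hP]

private theorem H_cp_snd {S : Type*} [Fintype S] {P : Ω → ℝ} (hP : IsProb P) {J' : Type*} [Fintype J'] (C : Ω → J')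
    (X : Ω → S) : H (cp P C) (fun ω => X ω.2) = H P X := by
  unfold H
  rw [law_cp_snd hP]

/-- (BSG) the entropic Balog–Szemerédi–Gowers inequality.  Let `C = (A + B, Z)`, work in `Ω × Ω` with `cp P C`, write `A₁ = A ∘ fst`,
`B₂ = B ∘ snd` ... On the support `A₁ + B₁ = A₂ + B₂`, `Z₁ = Z₂`, hence (exponent 2) `A₁ + B₂ = A₂ + B₁`.
By `dcond_eq` the left side is `H(A₁+B₂, C₁) - H(A,B,Z)` (`H_eq_of_ker`).
`H_submod`: `H(A₁+B₂, A₁+B₁, Z₁) ≤ H(A₁+B₂,Z₁) + H(A+B,Z) - H(Z)`;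
`H_submod`: `H(A₁+B₂,Z₁) + H(A₁,B₁,A₁+B₂,Z₁) ≤ H(A₁,A₁+B₂,Z₁) + H(B₁,A₁+B₂,Z₁)`,
where `H(A₁,A₁+B₂,Z₁) = H(A₁,B₂,Z₁) ≤ H(A,Z)+H(B,Z)-H(Z)` (`H_submod` and `law_cp_fst/snd`), `H(B₁,A₁+B₂,Z₁) = H(B₁,A₂,Z₁)` the same bound,
`H(A₁,B₁,A₁+B₂,Z₁) = H((A₁,B₁),(A₂,B₂),C₁) = 2H(A,B,Z) - H(A+B,Z)` (`H_cp`, `H_eq_of_ker`).  Add everything. -/
theorem dcond_bsg (h2 : ∀ x : G, x + x = 0) {P : Ω → ℝ} (hP : IsProb P) (A B : Ω → G) (Z : Ω → J) :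
    dcond P A B (fun ω => (A ω + B ω, Z ω)) ≤
      2 * H P (fun ω => (A ω, Z ω)) + 2 * H P (fun ω => (B ω, Z ω)) +
        2 * H P (fun ω => (A ω + B ω, Z ω)) - 3 * H P (fun ω => (A ω, B ω, Z ω)) - 3 * H P Z := by
  set C : Ω → G × J := fun ω => (A ω + B ω, Z ω) with hC
  have hQ := isProb_cp hP C
  -- the support
  have hsup : ∀ ω : Ω × Ω, cp P C ω ≠ 0 → A ω.1 + B ω.1 = A ω.2 + B ω.2 ∧ Z ω.1 = Z ω.2 := by
    intro ω hω
    have h := cp_ne_zero hω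
    exact ⟨congrArg Prod.fst h, congrArg Prod.snd h⟩
  have hD : ∀ ω : Ω × Ω, cp P C ω ≠ 0 → A ω.1 + B ω.2 = B ω.1 + A ω.2 := by
    intro ω hω
    have h := (hsup ω hω).1
    have h3 := h2 (B ω.1)
    have h4 := h2 (B ω.2)
    calc A ω.1 + B ω.2 = (A ω.1 + B ω.1) + B ω.2 - B ω.1 := by abel
      _ = (A ω.2 + B ω.2) + B ω.2 - B ω.1 := by rw [h]
      _ = A ω.2 + (B ω.2 + B ω.2) - B ω.1 := by abel
      _ = A ω.2 + (B ω.1 + B ω.1) - B ω.1 := by rw [h4, h3]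
      _ = B ω.1 + A ω.2 := by abel
  -- entropies on `Ω`
  have e1 : H P (fun ω => (A ω, C ω)) = H P (fun ω => (A ω, B ω, Z ω)) := by
    refine H_eq_of_ker P _ _ fun ω ω' _ _ => ?_
    simp only [hC, Prod.mk.injEq]
    constructor
    · rintro ⟨h3, h4, h5⟩
      rw [h3] at h4
      exact ⟨h3, add_left_cancel h4, h5⟩
    · rintro ⟨h3, h4, h5⟩
      exact ⟨h3, by rw [h3, h4], h5⟩
  have e2 : H P (fun ω => (B ω, C ω)) = H P (fun ω => (A ω, B ω, Z ω)) := by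
    refine H_eq_of_ker P _ _ fun ω ω' _ _ => ?_
    simp only [hC, Prod.mk.injEq]
    constructor
    · rintro ⟨h3, h4, h5⟩
      rw [h3] at h4
      exact ⟨add_right_cancel h4, h3, h5⟩
    · rintro ⟨h3, h4, h5⟩
      exact ⟨h4, by rw [h3, h4], h5⟩
  have e3 : H P (fun ω => ((A ω, B ω), C ω)) = H P (fun ω => (A ω, B ω, Z ω)) := by
    refine H_eq_of_ker P _ _ fun ω ω' _ _ => ?_
    simp only [hC, Prod.mk.injEq]
    constructor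
    · rintro ⟨⟨h3, h4⟩, h5, h6⟩
      exact ⟨h3, h4, h6⟩
    · rintro ⟨h3, h4, h5⟩
      exact ⟨⟨h3, h4⟩, by rw [h3, h4], h5⟩
  have key := dcond_eq hP A B C
  rw [e1, e2] at key
  -- step 1
  have s1 := H_submod hQ (fun ω : Ω × Ω => A ω.1 + B ω.2) (fun ω : Ω × Ω => A ω.1 + B ω.1) (fun ω : Ω × Ω => Z ω.1)
  rw [H_cp_fst hP C Z, H_cp_fst hP C (fun ω => (A ω + B ω, Z ω))] at s1
  -- step 2
  have s2 := H_submod hQ (fun ω : Ω × Ω => A ω.1) (fun ω : Ω × Ω => B ω.1)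
    (fun ω : Ω × Ω => (A ω.1 + B ω.2, Z ω.1))
  have s3 := H_submod hQ (fun ω : Ω × Ω => A ω.1) (fun ω : Ω × Ω => B ω.2) (fun ω : Ω × Ω => Z ω.1)
  have s4 := H_submod hQ (fun ω : Ω × Ω => B ω.1) (fun ω : Ω × Ω => A ω.2) (fun ω : Ω × Ω => Z ω.1)
  have f1 : H (cp P C) (fun ω : Ω × Ω => (B ω.2, Z ω.1)) = H P (fun ω => (B ω, Z ω)) := by
    rw [← H_cp_snd hP C (fun ω => (B ω, Z ω))]
    refine H_eq_of_ker _ _ _ fun ω ω' hω hω' => ?_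
    simp only [Prod.mk.injEq]
    rw [(hsup ω hω).2, (hsup ω' hω').2]
  have f2 : H (cp P C) (fun ω : Ω × Ω => (A ω.2, Z ω.1)) = H P (fun ω => (A ω, Z ω)) := by
    rw [← H_cp_snd hP C (fun ω => (A ω, Z ω))]
    refine H_eq_of_ker _ _ _ fun ω ω' hω hω' => ?_
    simp only [Prod.mk.injEq]
    rw [(hsup ω hω).2, (hsup ω' hω').2]
  rw [H_cp_fst hP C Z, H_cp_fst hP C (fun ω => (A ω, Z ω)), f1] at s3
  rw [H_cp_fst hP C Z, H_cp_fst hP C (fun ω => (B ω, Z ω)), f2] at s4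
  have g1 : H (cp P C) (fun ω : Ω × Ω => (A ω.1, A ω.1 + B ω.2, Z ω.1)) =
      H (cp P C) (fun ω : Ω × Ω => (A ω.1, B ω.2, Z ω.1)) := by
    refine H_eq_of_ker _ _ _ fun ω ω' _ _ => ?_
    simp only [Prod.mk.injEq]
    constructor
    · rintro ⟨h3, h4, h5⟩
      rw [h3] at h4
      exact ⟨h3, add_left_cancel h4, h5⟩
    · rintro ⟨h3, h4, h5⟩
      exact ⟨h3, by rw [h3, h4], h5⟩
  have g2 : H (cp P C) (fun ω : Ω × Ω => (B ω.1, A ω.1 + B ω.2, Z ω.1)) =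
      H (cp P C) (fun ω : Ω × Ω => (B ω.1, A ω.2, Z ω.1)) := by
    refine H_eq_of_ker _ _ _ fun ω ω' hω hω' => ?_
    simp only [Prod.mk.injEq]
    rw [hD ω hω, hD ω' hω']
    constructor
    · rintro ⟨h3, h4, h5⟩
      rw [h3] at h4
      exact ⟨h3, add_left_cancel h4, h5⟩
    · rintro ⟨h3, h4, h5⟩
      exact ⟨h3, by rw [h3, h4], h5⟩
  have g3 : H (cp P C) (fun ω : Ω × Ω => (A ω.1, B ω.1, A ω.1 + B ω.2, Z ω.1)) =
      H (cp P C) (fun ω : Ω × Ω => ((A ω.1, B ω.1), (A ω.2, B ω.2), C ω.1)) := by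
    refine H_eq_of_ker _ _ _ fun ω ω' hω hω' => ?_
    have k1 := (hsup ω hω).1
    have k2 := (hsup ω' hω').1
    simp only [hC, Prod.mk.injEq]
    constructor
    · rintro ⟨h3, h4, h5, h6⟩
      have h7 : B ω.2 = B ω'.2 := by
        rw [h3] at h5
        exact add_left_cancel h5
      have h8 : A ω.2 = A ω'.2 := by
        rw [h3, h4, h7] at k1
        rw [k2] at k1
        exact (add_right_cancel k1).symm
      exact ⟨⟨h3, h4⟩, ⟨h8, h7⟩, by rw [h3, h4], h6⟩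
    · rintro ⟨⟨h3, h4⟩, ⟨h5, h6⟩, h7, h8⟩
      exact ⟨h3, h4, by rw [h3, h6], h8⟩
  have g4 := H_cp hP C (fun ω => (A ω, B ω)) (fun ω => (A ω, B ω))
  rw [g1, g2, g3, g4, e3] at s2
  have e4 : H (cp P C) (fun ω : Ω × Ω => (A ω.1 + B ω.2, C ω.1)) =
      H (cp P C) (fun ω : Ω × Ω => (A ω.1 + B ω.2, A ω.1 + B ω.1, Z ω.1)) := rfl
  rw [e4] at key
  rw [key]
  have e5 : H P C = H P (fun ω => (A ω + B ω, Z ω)) := rfl
  rw [e5] at s2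
  linarith

end Pool.Agent.PFR
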