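import Pool.Agent.PFR.Cond

/-!
# Conditionally independent copies
-/

namespace Pool.Agent.PFR

variable {Ω S T J : Type*} [Fintype Ω] [Fintype S] [Fintype T] [Fintype J]

theorem Copies_aux.zero_of_law {P : Ω → ℝ} (hP : IsProb P) (X : Ω → S) {ω : Ω}
    (h : law P X (X ω) = 0) : P ω = 0 := by
  by_contra h1
  exact (law_pos hP X h1).ne' h

theorem Copies_aux.cp_symm (P : Ω → ℝ) (C : Ω → J) (ω ω' : Ω) : cp P C (ω, ω') = cp P C (ω', ω) := by
  classical
  simp only [cp]
  by_cases h : C ω = C ω'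
  · rw [if_pos h, if_pos h.symm, h, mul_comm]
  · rw [if_neg h, if_neg (fun h' => h h'.symm)]

theorem Copies_aux.sum_snd {P : Ω → ℝ} (hP : IsProb P) (C : Ω → J) (ω : Ω) :
    ∑ ω', cp P C (ω, ω') = P ω := by
  classical
  have h1 : ∀ ω', cp P C (ω, ω') = P ω / law P C (C ω) * (if C ω' = C ω then P ω' else 0) := by
    intro ω'
    simp only [cp]
    by_cases h : C ω = C ω'
    · rw [if_pos h, if_pos h.symm]
      ring
    · rw [if_neg h, if_neg (fun h' => h h'.symm), mul_zero]
  rw [Finset.sum_congr rfl fun ω' _ => h1 ω', ← Finset.mul_sum]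
  have h2 : (∑ ω', if C ω' = C ω then P ω' else 0) = law P C (C ω) := by
    simp only [law]
  rw [h2]
  by_cases h3 : law P C (C ω) = 0
  · rw [h3, Copies_aux.zero_of_law hP C h3, mul_zero]
  · exact div_mul_cancel₀ _ h3

theorem Copies_aux.sum_fst {P : Ω → ℝ} (hP : IsProb P) (C : Ω → J) (ω : Ω) :
    ∑ ω', cp P C (ω', ω) = P ω := by
  rw [← Copies_aux.sum_snd hP C ω]
  exact Finset.sum_congr rfl fun ω' _ => Copies_aux.cp_symm P C ω' ω

/-- sum over the second coordinate first: `∑ ω', cp P C (ω, ω') = P ω` -/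
theorem isProb_cp {P : Ω → ℝ} (hP : IsProb P) (C : Ω → J) : IsProb (cp P C) := by
  classical
  refine ⟨fun ω => ?_, ?_⟩
  · simp only [cp]
    split_ifs
    · exact div_nonneg (mul_nonneg (hP.nonneg _) (hP.nonneg _)) (law_nonneg hP _ _)
    · exact le_refl _
  · rw [Fintype.sum_prod_type]
    rw [Finset.sum_congr rfl fun ω _ => Copies_aux.sum_snd hP C ω]
    exact hP.sum_eq

theorem cp_ne_zero {P : Ω → ℝ} {C : Ω → J} {ω : Ω × Ω} (h : cp P C ω ≠ 0) : C ω.1 = C ω.2 := by
  classical
  by_contra h1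
  apply h
  simp only [cp]
  rw [if_neg h1]

theorem law_cp_fst {P : Ω → ℝ} (hP : IsProb P) (C : Ω → J) (X : Ω → S) :
    law (cp P C) (fun ω => X ω.1) = law P X := by
  classical
  funext x
  simp only [law]
  rw [Fintype.sum_prod_type]
  refine Finset.sum_congr rfl fun ω _ => ?_
  by_cases h : X ω = x
  · simp only [h, if_true]
    exact Copies_aux.sum_snd hP C ω
  · simp [h]

theorem law_cp_snd {P : Ω → ℝ} (hP : IsProb P) (C : Ω → J) (X : Ω → S) :
    law (cp P C) (fun ω => X ω.2) = law P X := by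
  classical
  funext x
  simp only [law]
  rw [Fintype.sum_prod_type_right]
  refine Finset.sum_congr rfl fun ω _ => ?_
  by_cases h : X ω = x
  · simp only [h, if_true]
    exact Copies_aux.sum_fst hP C ω
  · simp [h]

theorem Copies_aux.law_triple (P : Ω → ℝ) (C : Ω → J) (X : Ω → S) (Y : Ω → T) (x : S) (y : T)
    (c : J) : law (cp P C) (fun ω => (X ω.1, Y ω.2, C ω.1)) (x, y, c) =
      law P (fun ω => (X ω, C ω)) (x, c) * law P (fun ω => (Y ω, C ω)) (y, c) / law P C c := by
  classical
  have h0 : law P (fun ω => (X ω, C ω)) (x, c) * law P (fun ω => (Y ω, C ω)) (y, c) / law P C c =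
      ∑ ω, ∑ ω', (if (X ω, C ω) = (x, c) then P ω else 0) *
        (if (Y ω', C ω') = (y, c) then P ω' else 0) / law P C c := by
    simp only [law]
    rw [Finset.sum_mul_sum, Finset.sum_div]
    refine Finset.sum_congr rfl fun ω _ => ?_
    rw [Finset.sum_div]
    exact Finset.sum_congr rfl fun ω' _ => by congr!
  rw [h0]
  simp only [law]
  rw [Fintype.sum_prod_type]
  refine Finset.sum_congr rfl fun ω _ => Finset.sum_congr rfl fun ω' _ => ?_
  simp only [cp, Prod.mk.injEq]
  by_cases h1 : X ω = x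
  · by_cases h2 : C ω = c
    · by_cases h3 : Y ω' = y
      · by_cases h4 : C ω' = c
        · simp only [h1, h2, h3, h4, law, and_self, if_true]
        · have h5 : ¬ (c = C ω') := fun h => h4 h.symm
          simp [h1, h2, h3, h4, h5]
      · simp [h3]
    · simp [h2]
  · simp [h1]

/-- `law (cp P C) (X₁, Y₂, C₁) (x, y, c) = law P (X,C) (x,c) * law P (Y,C) (y,c) / law P C c` (which is `0 / 0 = 0` when
`law P C c = 0`); take logarithms. Possibly easiest with `H_eq_sum`-like formula: `∑ law * log`, or through `chain_rule`. -/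
theorem H_cp {P : Ω → ℝ} (hP : IsProb P) (C : Ω → J) (X : Ω → S) (Y : Ω → T) :
    H (cp P C) (fun ω => (X ω.1, Y ω.2, C ω.1)) =
      H P (fun ω => (X ω, C ω)) + H P (fun ω => (Y ω, C ω)) - H P C := by
  classical
  have e1 : ∑ ω : Ω × Ω, cp P C ω * Real.log (law P (fun ω => (X ω, C ω)) (X ω.1, C ω.1)) =
      ∑ ω, P ω * Real.log (law P (fun ω => (X ω, C ω)) (X ω, C ω)) := by
    rw [Fintype.sum_prod_type]
    refine Finset.sum_congr rfl fun ω _ => ?_
    show ∑ ω', cp P C (ω, ω') * _ = _
    simp only []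
    rw [← Finset.sum_mul, Copies_aux.sum_snd hP C ω]
  have e2 : ∑ ω : Ω × Ω, cp P C ω * Real.log (law P (fun ω => (Y ω, C ω)) (Y ω.2, C ω.2)) =
      ∑ ω, P ω * Real.log (law P (fun ω => (Y ω, C ω)) (Y ω, C ω)) := by
    rw [Fintype.sum_prod_type_right]
    refine Finset.sum_congr rfl fun ω _ => ?_
    show ∑ ω', cp P C (ω', ω) * _ = _
    simp only []
    rw [← Finset.sum_mul, Copies_aux.sum_fst hP C ω]
  have e3 : ∑ ω : Ω × Ω, cp P C ω * Real.log (law P C (C ω.1)) =
      ∑ ω, P ω * Real.log (law P C (C ω)) := by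
    rw [Fintype.sum_prod_type]
    refine Finset.sum_congr rfl fun ω _ => ?_
    show ∑ ω', cp P C (ω, ω') * _ = _
    simp only []
    rw [← Finset.sum_mul, Copies_aux.sum_snd hP C ω]
  rw [H_eq_sum, H_eq_sum, H_eq_sum, H_eq_sum, ← e1, ← e2, ← e3]
  rw [show ∀ a b c : ℝ, -a + -b - -c = -(a + b - c) by intro a b c; ring,
    ← Finset.sum_add_distrib, ← Finset.sum_sub_distrib]
  congr 1
  refine Finset.sum_congr rfl fun ω _ => ?_
  by_cases h : cp P C ω = 0
  · rw [h]
    ring
  · have hC : C ω.1 = C ω.2 := cp_ne_zero h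
    have h1 : P ω.1 ≠ 0 := by
      intro h1
      apply h
      simp only [cp]
      rw [h1]
      simp
    have h2 : P ω.2 ≠ 0 := by
      intro h2
      apply h
      simp only [cp]
      rw [h2]
      simp
    have p1 := (law_pos hP (fun ω => (X ω, C ω)) h1).ne'
    have p2 := (law_pos hP (fun ω => (Y ω, C ω)) h2).ne'
    have p3 := (law_pos hP C h1).ne'
    have e := Copies_aux.law_triple P C X Y (X ω.1) (Y ω.2) (C ω.1)
    rw [e, ← hC]
    rw [← hC] at p2
    rw [Real.log_div (mul_ne_zero p1 p2) p3, Real.log_mul p1 p2]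
    ring

variable {G : Type*} [AddCommGroup G] [Fintype G]

theorem Copies_aux.law_cnd {P : Ω → ℝ} (hP : IsProb P) (A B : Ω → G) (C : Ω → J) (c : J) :
    law (cnd (cp P C) (fun ω => C ω.1) c) (fun ω => A ω.1 + B ω.2) =
      conv (law (cnd P C c) A) (law (cnd P C c) B) := by
  classical
  funext z
  have h0 : ∀ ω ω' : Ω, cnd (cp P C) (fun ω => C ω.1) c (ω, ω') = cnd P C c ω * cnd P C c ω' := by
    intro ω ω'
    simp only [cnd]
    rw [law_cp_fst hP C C]
    simp only [cp]
    by_cases h1 : C ω = c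
    · by_cases h2 : C ω' = c
      · simp only [h1, h2, if_true]
        ring
      · have h5 : ¬ (c = C ω') := fun h => h2 h.symm
        simp [h1, h2, h5]
    · simp [h1]
  have h1 : law (cnd (cp P C) (fun ω => C ω.1) c) (fun ω => A ω.1 + B ω.2) z =
      ∑ ω, ∑ ω', if A ω + B ω' = z then cnd P C c ω * cnd P C c ω' else 0 := by
    simp only [law]
    rw [Fintype.sum_prod_type]
    refine Finset.sum_congr rfl fun ω _ => Finset.sum_congr rfl fun ω' _ => ?_
    rw [h0]
  have h2 : conv (law (cnd P C c) A) (law (cnd P C c) B) z =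
      ∑ x, ∑ ω, ∑ ω', (if A ω = x then cnd P C c ω else 0) *
        (if B ω' = z - x then cnd P C c ω' else 0) := by
    simp only [conv, law]
    refine Finset.sum_congr rfl fun x _ => ?_
    rw [Finset.sum_mul_sum]
  rw [h1, h2]
  rw [Finset.sum_comm (s := (Finset.univ : Finset G))]
  refine Finset.sum_congr rfl fun ω _ => ?_
  rw [Finset.sum_comm (s := (Finset.univ : Finset G))]
  refine Finset.sum_congr rfl fun ω' _ => ?_
  rw [Finset.sum_eq_single (A ω)]
  · rw [if_pos rfl]
    by_cases h : A ω + B ω' = z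
    · rw [if_pos h, if_pos (by rw [← h]; abel)]
    · rw [if_neg h, if_neg (fun h' => h (by rw [h']; abel)), mul_zero]
  · intro x _ hx
    rw [if_neg (fun h => hx h.symm), zero_mul]
  · intro h
    exact absurd (Finset.mem_univ _) h

/-- For `L = law P C c ≠ 0` the law of `A₁ + B₂` under `cnd (cp P C) C₁ c` is `conv (law (cnd P C c) A) (law (cnd P C c) B)`,
and `law (cp P C) C₁ = law P C` (`law_cp_fst`); then `chain_rule` for `cp P C` and (twice) for `P`. -/
theorem dcond_eq {P : Ω → ℝ} (hP : IsProb P) (A B : Ω → G) (C : Ω → J) :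
    dcond P A B C = H (cp P C) (fun ω => (A ω.1 + B ω.2, C ω.1)) -
      (H P (fun ω => (A ω, C ω)) + H P (fun ω => (B ω, C ω))) / 2 := by
  have h1 := chain_rule (isProb_cp hP C) (fun ω : Ω × Ω => A ω.1 + B ω.2) (fun ω => C ω.1)
  have h2 := chain_rule hP A C
  have h3 := chain_rule hP B C
  have h4 : H (cp P C) (fun ω => C ω.1) = H P C := by
    unfold H
    rw [law_cp_fst hP C C]
  have h5 : ∀ c, H (cnd (cp P C) (fun ω => C ω.1) c) (fun ω => A ω.1 + B ω.2) =
      ent (conv (law (cnd P C c) A) (law (cnd P C c) B)) := by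
    intro c
    unfold H
    rw [Copies_aux.law_cnd hP A B C c]
  rw [h4, law_cp_fst hP C C] at h1
  simp only [h5] at h1
  unfold dcond dist
  have h6 : ∀ c, law P C c * (ent (conv (law (cnd P C c) A) (law (cnd P C c) B)) -
      (ent (law (cnd P C c) A) + ent (law (cnd P C c) B)) / 2) =
      law P C c * ent (conv (law (cnd P C c) A) (law (cnd P C c) B)) -
      (law P C c * H (cnd P C c) A + law P C c * H (cnd P C c) B) / 2 := by
    intro c
    unfold H
    ring
  rw [Finset.sum_congr rfl fun c _ => h6 c, Finset.sum_sub_distrib, ← Finset.sum_div,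
    Finset.sum_add_distrib, h1, h2, h3]
  ring

/-- (CD) the conditionally independent case: by `dcond_eq` it is enough that the laws of `(A₁ + B₂, C₁)` under `cp P C` and of
`(A + B, C)` under `P` agree; both triples `(A₁, B₂, C₁)` and `(A, B, C)` have the same law by `hI`. -/
theorem dcond_indep {P : Ω → ℝ} (hP : IsProb P) (A B : Ω → G) (C : Ω → J)
    (hI : ∀ a b c, law P (fun ω => (A ω, B ω, C ω)) (a, b, c) * law P C c =
      law P (fun ω => (A ω, C ω)) (a, c) * law P (fun ω => (B ω, C ω)) (b, c)) :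
    dcond P A B C = H P (fun ω => (A ω + B ω, C ω)) -
      (H P (fun ω => (A ω, C ω)) + H P (fun ω => (B ω, C ω))) / 2 := by
  classical
  rw [dcond_eq hP]
  congr 1
  have key : law (cp P C) (fun ω => (A ω.1, B ω.2, C ω.1)) =
      law P (fun ω => (A ω, B ω, C ω)) := by
    funext ⟨a, b, c⟩
    rw [Copies_aux.law_triple, ← hI]
    by_cases h : law P C c = 0
    · rw [h, mul_zero, zero_div]
      symm
      simp only [law]
      refine Finset.sum_eq_zero fun ω _ => ?_
      by_cases h1 : (A ω, B ω, C ω) = (a, b, c)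
      · rw [if_pos h1]
        simp only [Prod.mk.injEq] at h1
        refine Copies_aux.zero_of_law hP C (ω := ω) ?_
        rw [h1.2.2, h]
      · rw [if_neg h1]
    · exact mul_div_cancel_right₀ _ h
  have h1 := law_comp (cp P C) (fun ω : Ω × Ω => (A ω.1, B ω.2, C ω.1))
    (fun t : G × G × J => (t.1 + t.2.1, t.2.2))
  have h2 := law_comp P (fun ω : Ω => (A ω, B ω, C ω))
    (fun t : G × G × J => (t.1 + t.2.1, t.2.2))
  unfold H
  rw [← h1, ← h2, key]

end Pool.Agent.PFR
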