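import Mathlib

/-!
# Entropy of finite distributions: definitions
-/

namespace Pool.Agent.PFR

open Classical in
/-- law of `X` under the weight `P` -/
noncomputable def law {Ω S : Type*} [Fintype Ω] (P : Ω → ℝ) (X : Ω → S) (s : S) : ℝ :=
  ∑ ω, if X ω = s then P ω else 0

/-- probability weights -/
structure IsProb {Ω : Type*} [Fintype Ω] (P : Ω → ℝ) : Prop where
  nonneg : ∀ ω, 0 ≤ P ω
  sum_eq : ∑ ω, P ω = 1

/-- entropy of a weight -/
noncomputable def ent {S : Type*} [Fintype S] (p : S → ℝ) : ℝ := ∑ s, Real.negMulLog (p s)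

/-- entropy of a random variable -/
noncomputable def H {Ω S : Type*} [Fintype Ω] [Fintype S] (P : Ω → ℝ) (X : Ω → S) : ℝ :=
  ent (law P X)

/-- convolution: law of the sum of independent variables -/
noncomputable def conv {G : Type*} [AddCommGroup G] [Fintype G] (p q : G → ℝ) (z : G) : ℝ :=
  ∑ x, p x * q (z - x)

/-- entropic Ruzsa distance of two laws (exponent `2`: sums = differences) -/
noncomputable def dist {G : Type*} [AddCommGroup G] [Fintype G] (p q : G → ℝ) : ℝ :=
  ent (conv p q) - (ent p + ent q) / 2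

open Classical in
/-- conditional weight given `C = c` -/
noncomputable def cnd {Ω J : Type*} [Fintype Ω] (P : Ω → ℝ) (C : Ω → J) (c : J) (ω : Ω) : ℝ :=
  if C ω = c then P ω / law P C c else 0

/-- average of `dist` between the conditional laws of `A` and `B` given `C` -/
noncomputable def dcond {Ω J G : Type*} [Fintype Ω] [Fintype J] [AddCommGroup G] [Fintype G]
    (P : Ω → ℝ) (A B : Ω → G) (C : Ω → J) : ℝ :=
  ∑ c, law P C c * dist (law (cnd P C c) A) (law (cnd P C c) B)

/-- average of `dist` between the law `p` and the conditional laws of `A` given `C` -/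
noncomputable def dref {Ω J G : Type*} [Fintype Ω] [Fintype J] [AddCommGroup G] [Fintype G]
    (p : G → ℝ) (P : Ω → ℝ) (A : Ω → G) (C : Ω → J) : ℝ :=
  ∑ c, law P C c * dist p (law (cnd P C c) A)

open Classical in
/-- two conditionally independent copies given `C` -/
noncomputable def cp {Ω J : Type*} [Fintype Ω] (P : Ω → ℝ) (C : Ω → J) (ω : Ω × Ω) : ℝ :=
  if C ω.1 = C ω.2 then P ω.1 * P ω.2 / law P C (C ω.1) else 0

open Classical in
/-- uniform weight on a subgroup -/
noncomputable def unif {G : Type*} [AddCommGroup G] [Fintype G] (V : AddSubgroup G) (x : G) : ℝ :=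
  if x ∈ V then 1 / (Nat.card V : ℝ) else 0

/-- four independent variables with laws `p, q, p, q` -/
noncomputable def P4 {G : Type*} (p q : G → ℝ) (ω : G × G × G × G) : ℝ :=
  p ω.1 * q ω.2.1 * (p ω.2.2.1 * q ω.2.2.2)

end Pool.Agent.PFR
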