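import Pool.Agent.PFR.Defs

/-!
# Entropy of finite distributions: basic facts
-/

namespace Pool.Agent.PFR

variable {Ω S T : Type*} [Fintype Ω]

/-- sum of nonnegative terms -/
theorem law_nonneg {P : Ω → ℝ} (hP : IsProb P) (X : Ω → S) (s : S) : 0 ≤ law P X s := by
  classical
  unfold law
  refine Finset.sum_nonneg fun ω _ => ?_
  split_ifs
  · exact hP.nonneg ω
  · exact le_rfl

theorem isProb_law [Fintype S] {P : Ω → ℝ} (hP : IsProb P) (X : Ω → S) : IsProb (law P X) := by
  classical
  refine ⟨law_nonneg hP X, ?_⟩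
  unfold law
  rw [Finset.sum_comm, ← hP.sum_eq]
  refine Finset.sum_congr rfl fun ω _ => ?_
  rw [Finset.sum_ite_eq, if_pos (Finset.mem_univ _)]

theorem law_comp [Fintype S] (P : Ω → ℝ) (X : Ω → S) (f : S → T) :
    law (law P X) f = law P (fun ω => f (X ω)) := by
  classical
  funext t
  show (∑ s, if f s = t then law P X s else 0) = ∑ ω, if f (X ω) = t then P ω else 0
  have h1 : ∀ s, (if f s = t then law P X s else 0) =
      ∑ ω, if X ω = s then (if f (X ω) = t then P ω else 0) else 0 := by
    intro s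
    by_cases h : f s = t
    · rw [if_pos h]
      unfold law
      refine Finset.sum_congr rfl fun ω _ => ?_
      by_cases h2 : X ω = s
      · rw [if_pos h2, if_pos h2, if_pos (by rw [h2]; exact h)]
      · rw [if_neg h2, if_neg h2]
    · rw [if_neg h]
      symm
      refine Finset.sum_eq_zero fun ω _ => ?_
      by_cases h2 : X ω = s
      · rw [if_pos h2, if_neg (by rw [h2]; exact h)]
      · rw [if_neg h2]
  rw [Finset.sum_congr rfl fun s _ => h1 s, Finset.sum_comm]
  refine Finset.sum_congr rfl fun ω _ => ?_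
  rw [Finset.sum_ite_eq, if_pos (Finset.mem_univ _)]

/-- the term `ω` is in the sum and is positive -/
theorem law_pos {P : Ω → ℝ} (hP : IsProb P) (X : Ω → S) {ω : Ω} (h : P ω ≠ 0) :
    0 < law P X (X ω) := by
  classical
  have h1 : 0 < P ω := lt_of_le_of_ne (hP.nonneg ω) (Ne.symm h)
  refine h1.trans_le ?_
  unfold law
  have h2 := Finset.single_le_sum (f := fun ω' => if X ω' = X ω then P ω' else 0)
    (fun ω' _ => by
      show 0 ≤ (if X ω' = X ω then P ω' else 0)
      split_ifs
      · exact hP.nonneg ω'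
      · exact le_rfl) (Finset.mem_univ ω)
  simpa using h2

theorem law_id (P : Ω → ℝ) : law P (fun ω => ω) = P := by
  classical
  funext s
  show (∑ ω, if ω = s then P ω else 0) = P s
  rw [Finset.sum_ite_eq', if_pos (Finset.mem_univ _)]

theorem H_id (P : Ω → ℝ) : H P (fun ω => ω) = ent P := by
  rw [H, law_id]

/-- `∑ s, negMulLog (law s) = -∑ s, law s * log (law s)`, insert the definition of `law s`, exchange the sums
(`Finset.sum_comm`) and use `Finset.sum_ite_eq` over `s`. -/
theorem H_eq_sum [Fintype S] (P : Ω → ℝ) (X : Ω → S) :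
    H P X = - ∑ ω, P ω * Real.log (law P X (X ω)) := by
  classical
  unfold H ent
  have h1 : ∀ s, Real.negMulLog (law P X s) =
      - ∑ ω, if X ω = s then P ω * Real.log (law P X (X ω)) else 0 := by
    intro s
    have h2 : (∑ ω, if X ω = s then P ω * Real.log (law P X (X ω)) else 0) =
        law P X s * Real.log (law P X s) := by
      have h3 : law P X s = ∑ ω, if X ω = s then P ω else 0 := rfl
      conv_rhs => rw [h3, Finset.sum_mul, ← h3]
      refine Finset.sum_congr rfl fun ω _ => ?_
      by_cases h : X ω = s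
      · rw [if_pos h, if_pos h, h]
      · rw [if_neg h, if_neg h, zero_mul]
    rw [h2, Real.negMulLog]
    ring
  rw [Finset.sum_congr rfl fun s _ => h1 s, Finset.sum_neg_distrib, Finset.sum_comm]
  congr 1
  refine Finset.sum_congr rfl fun ω _ => ?_
  rw [Finset.sum_ite_eq, if_pos (Finset.mem_univ _)]

/-- entropy depends only on the partition: by `H_eq_sum` it is enough that `law P X (X ω) = law P Y (Y ω)` when
`P ω ≠ 0`, and both are sums over `ω'` of `P ω'` or `0`. -/
theorem H_eq_of_ker [Fintype S] [Fintype T] (P : Ω → ℝ) (X : Ω → S) (Y : Ω → T)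
    (h : ∀ ω ω', P ω ≠ 0 → P ω' ≠ 0 → (X ω = X ω' ↔ Y ω = Y ω')) : H P X = H P Y := by
  classical
  rw [H_eq_sum, H_eq_sum]
  congr 1
  refine Finset.sum_congr rfl fun ω _ => ?_
  by_cases h0 : P ω = 0
  · rw [h0, zero_mul, zero_mul]
  · congr 2
    unfold law
    refine Finset.sum_congr rfl fun ω' _ => ?_
    by_cases h1 : P ω' = 0
    · rw [h1, ite_self, ite_self]
    · by_cases h2 : X ω' = X ω
      · rw [if_pos h2, if_pos ((h ω' ω h1 h0).1 h2)]
      · rw [if_neg h2, if_neg (fun h3 => h2 ((h ω' ω h1 h0).2 h3))]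

/-- by `H_eq_sum`: `law P Y (Y ω) ≤ law P X (X ω)` when `P ω ≠ 0`, both positive; log is monotone. -/
theorem H_le_of_ker [Fintype S] [Fintype T] {P : Ω → ℝ} (hP : IsProb P) (X : Ω → S) (Y : Ω → T)
    (h : ∀ ω ω', P ω ≠ 0 → P ω' ≠ 0 → Y ω = Y ω' → X ω = X ω') : H P X ≤ H P Y := by
  classical
  rw [H_eq_sum, H_eq_sum]
  apply neg_le_neg
  refine Finset.sum_le_sum fun ω _ => ?_
  by_cases h0 : P ω = 0
  · rw [h0, zero_mul, zero_mul]
  · refine mul_le_mul_of_nonneg_left (Real.log_le_log (law_pos hP Y h0) ?_) (hP.nonneg ω)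
    unfold law
    refine Finset.sum_le_sum fun ω' _ => ?_
    by_cases h1 : P ω' = 0
    · rw [h1, ite_self, ite_self]
    · by_cases h2 : Y ω' = Y ω
      · rw [if_pos h2, if_pos (h ω' ω h1 h0 h2)]
      · rw [if_neg h2]
        split_ifs
        · exact hP.nonneg ω'
        · exact le_rfl

theorem H_const [Fintype S] {P : Ω → ℝ} (hP : IsProb P) (c : S) : H P (fun _ => c) = 0 := by
  classical
  rw [H_eq_sum]
  have h1 : law P (fun _ => c) c = 1 := by
    unfold law
    simp [hP.sum_eq]
  rw [h1]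
  simp

/-- `0 ≤ p s ≤ 1` and `Real.negMulLog_nonneg` -/
theorem ent_nonneg [Fintype S] {p : S → ℝ} (hp : IsProb p) : 0 ≤ ent p := by
  unfold ent
  refine Finset.sum_nonneg fun s _ => Real.negMulLog_nonneg (hp.nonneg s) ?_
  rw [← hp.sum_eq]
  exact Finset.single_le_sum (fun i _ => hp.nonneg i) (Finset.mem_univ s)

/-- Gibbs: for `p s > 0`, `p s * log (w s / p s) ≤ w s - p s` (`Real.log_le_sub_one_of_pos`); sum over `s`. -/
theorem gibbs [Fintype S] {p : S → ℝ} (hp : IsProb p) (w : S → ℝ) (hw : ∀ s, 0 ≤ w s)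
    (hw1 : ∑ s, w s ≤ 1) (hs : ∀ s, p s ≠ 0 → w s ≠ 0) :
    ent p ≤ - ∑ s, p s * Real.log (w s) := by
  have h1 : ∀ s, Real.negMulLog (p s) + p s * Real.log (w s) ≤ w s - p s := by
    intro s
    by_cases h0 : p s = 0
    · rw [h0]
      simpa using hw s
    · have hp0 : 0 < p s := lt_of_le_of_ne (hp.nonneg s) (Ne.symm h0)
      have hw0 : 0 < w s := lt_of_le_of_ne (hw s) (Ne.symm (hs s h0))
      have h2 := Real.log_le_sub_one_of_pos (div_pos hw0 hp0)
      rw [Real.log_div hw0.ne' hp0.ne'] at h2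
      have h3 := mul_le_mul_of_nonneg_left h2 hp0.le
      have h4 : p s * (w s / p s - 1) = w s - p s := by
        field_simp
      rw [h4] at h3
      unfold Real.negMulLog
      linarith
  have h2 := Finset.sum_le_sum fun s (_ : s ∈ Finset.univ) => h1 s
  rw [Finset.sum_add_distrib, Finset.sum_sub_distrib, hp.sum_eq] at h2
  unfold ent
  linarith

/-- `gibbs` with `w` = uniform weight on `T` -/
theorem ent_le_log_card [Fintype S] {p : S → ℝ} (hp : IsProb p) (T : Finset S)
    (hT : ∀ s, p s ≠ 0 → s ∈ T) : ent p ≤ Real.log T.card := by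
  classical
  have hne : T.Nonempty := by
    by_contra h
    rw [Finset.not_nonempty_iff_eq_empty] at h
    have h1 : ∀ s, p s = 0 := fun s => by
      by_contra h2
      have := hT s h2
      rw [h] at this
      simp at this
    have h2 := hp.sum_eq
    rw [Finset.sum_eq_zero fun s _ => h1 s] at h2
    exact zero_ne_one h2
  have hc : (0 : ℝ) < T.card := by exact_mod_cast hne.card_pos
  have h1 := gibbs hp (fun s => if s ∈ T then 1 / (T.card : ℝ) else 0)
    (fun s => by
      show (0 : ℝ) ≤ if s ∈ T then 1 / (T.card : ℝ) else 0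
      split_ifs
      · positivity
      · exact le_rfl)
    (by
      rw [Finset.sum_ite_mem, Finset.univ_inter, Finset.sum_const, nsmul_eq_mul]
      rw [mul_one_div, div_self hc.ne'])
    (fun s h => by
      show (if s ∈ T then 1 / (T.card : ℝ) else 0) ≠ 0
      rw [if_pos (hT s h)]
      positivity)
  refine h1.trans (le_of_eq ?_)
  have h2 : ∀ s, p s * Real.log (if s ∈ T then 1 / (T.card : ℝ) else 0) =
      p s * (- Real.log T.card) := by
    intro s
    by_cases h0 : p s = 0
    · rw [h0, zero_mul, zero_mul]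
    · rw [if_pos (hT s h0), one_div, Real.log_inv]
  rw [Finset.sum_congr rfl fun s _ => h2 s, ← Finset.sum_mul, hp.sum_eq]
  ring

end Pool.Agent.PFR
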