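import Pool.Agent.PFR.Conv
import Pool.Agent.PFR.Cond

/-!
# The tau functional and its minimiser
-/

namespace Pool.Agent.PFR

variable {G : Type*} [AddCommGroup G] [Fintype G]

/-- conditional translation invariance: `law (cnd P C c) B` is the translate of `law (cnd P C c) A` by `f c`; `dist_shift` -/
theorem dref_shift {Ω J : Type*} [Fintype Ω] [Fintype J] (p : G → ℝ) (P : Ω → ℝ) (A B : Ω → G) (C : Ω → J) (f : J → G)
    (h : ∀ ω, B ω = A ω + f (C ω)) : dref p P B C = dref p P A C := by
  classical
  unfold dref
  refine Finset.sum_congr rfl fun c _ => ?_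
  congr 1
  have e : law (cnd P C c) B = fun x => law (cnd P C c) A (x - f c) := by
    funext x
    unfold law
    refine Finset.sum_congr rfl fun ω _ => ?_
    by_cases hc : C ω = c
    · have h1 : B ω = x ↔ A ω = x - f c := by
        rw [h, hc, eq_sub_iff_add_eq]
      by_cases h2 : A ω = x - f c
      · rw [if_pos (h1.2 h2), if_pos h2]
      · rw [if_neg (fun h3 => h2 (h1.1 h3)), if_neg h2]
    · have h1 : cnd P C c ω = 0 := by
        unfold cnd
        rw [if_neg hc]
      rw [h1, ite_self, ite_self]
  rw [e, dist_shift]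

/-- the functional of Gowers, Green, Manners and Tao -/
noncomputable def tau (η : ℝ) (r s p q : G → ℝ) : ℝ := dist p q + η * (dist r p + dist s q)

/-- minimiser of `tau` -/
structure IsMin (η : ℝ) (r s p q : G → ℝ) : Prop where
  left : IsProb p
  right : IsProb q
  le : ∀ p' q' : G → ℝ, IsProb p' → IsProb q' → tau η r s p q ≤ tau η r s p' q'

theorem isProb_iff_mem (p : G → ℝ) : IsProb p ↔ p ∈ stdSimplex ℝ G :=
  ⟨fun h => ⟨h.nonneg, h.sum_eq⟩, fun h => ⟨h.1, h.2⟩⟩

theorem continuous_ent : Continuous (fun p : G → ℝ => ent p) := by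
  unfold ent
  exact continuous_finset_sum _ fun s _ => Real.continuous_negMulLog.comp (continuous_apply s)

theorem continuous_dist : Continuous (fun pq : (G → ℝ) × (G → ℝ) => dist pq.1 pq.2) := by
  unfold dist
  refine Continuous.sub (continuous_ent.comp ?_) (Continuous.div_const ?_ 2)
  · refine continuous_pi fun z => ?_
    unfold conv
    exact continuous_finset_sum _ fun x _ =>
      ((continuous_apply x).comp continuous_fst).mul ((continuous_apply (z - x)).comp continuous_snd)
  · exact (continuous_ent.comp continuous_fst).add (continuous_ent.comp continuous_snd)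

theorem continuous_tau (η : ℝ) (r s : G → ℝ) :
    Continuous (fun pq : (G → ℝ) × (G → ℝ) => tau η r s pq.1 pq.2) := by
  unfold tau
  refine continuous_dist.add (Continuous.mul continuous_const (Continuous.add ?_ ?_))
  · exact continuous_dist.comp (continuous_const.prodMk continuous_fst)
  · exact continuous_dist.comp (continuous_const.prodMk continuous_snd)

/-- compactness: `{p | IsProb p} = stdSimplex ℝ G` is compact (`isCompact_stdSimplex`), so is the product of two of them, nonempty,
and `tau` is continuous (`Real.continuous_negMulLog`); `IsCompact.exists_isMinOn` -/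
theorem exists_min (η : ℝ) (r s : G → ℝ) : ∃ p q : G → ℝ, IsMin η r s p q := by
  classical
  have hK : IsCompact ((stdSimplex ℝ G) ×ˢ (stdSimplex ℝ G)) :=
    (isCompact_stdSimplex ℝ G).prod (isCompact_stdSimplex ℝ G)
  have hne : ((stdSimplex ℝ G) ×ˢ (stdSimplex ℝ G)).Nonempty :=
    ⟨(Pi.single 0 1, Pi.single 0 1), single_mem_stdSimplex ℝ 0, single_mem_stdSimplex ℝ 0⟩
  obtain ⟨⟨p, q⟩, hpq, hmin⟩ := hK.exists_isMinOn hne (continuous_tau η r s).continuousOn
  refine ⟨p, q, (isProb_iff_mem p).2 hpq.1, (isProb_iff_mem q).2 hpq.2, fun p' q' hp' hq' => ?_⟩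
  have h1 : (p', q') ∈ (stdSimplex ℝ G) ×ˢ (stdSimplex ℝ G) :=
    ⟨(isProb_iff_mem p').1 hp', (isProb_iff_mem q').1 hq'⟩
  exact hmin h1

/-- minimality applied to the pair `(law (cnd P C c) A, law (cnd P C c) B)` for every `c` with `law P C c ≠ 0`, multiplied by
`law P C c` and summed; `∑ c, law P C c = 1` -/
theorem min_cond {Ω J : Type*} [Fintype Ω] [Fintype J] {η : ℝ} {r s p q : G → ℝ}
    (hmin : IsMin η r s p q) {P : Ω → ℝ} (hP : IsProb P) (A B : Ω → G) (C : Ω → J) :
    dist p q ≤ dcond P A B C +
      η * ((dref r P A C - dist r p) + (dref s P B C - dist s q)) := by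
  have h1 : ∀ c, law P C c * tau η r s p q ≤
      law P C c * tau η r s (law (cnd P C c) A) (law (cnd P C c) B) := by
    intro c
    by_cases hc : law P C c = 0
    · rw [hc, zero_mul, zero_mul]
    · exact mul_le_mul_of_nonneg_left (hmin.le _ _ (isProb_law (isProb_cnd hP C hc) A)
        (isProb_law (isProb_cnd hP C hc) B)) (law_nonneg hP C c)
  have h2 := Finset.sum_le_sum fun (c : J) (_ : c ∈ Finset.univ) => h1 c
  rw [← Finset.sum_mul, (isProb_law hP C).sum_eq, one_mul] at h2
  have h3 : ∑ c, law P C c * tau η r s (law (cnd P C c) A) (law (cnd P C c) B) =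
      dcond P A B C + η * (dref r P A C + dref s P B C) := by
    unfold dcond dref tau
    rw [← Finset.sum_add_distrib, Finset.mul_sum, ← Finset.sum_add_distrib]
    refine Finset.sum_congr rfl fun c _ => ?_
    ring
  rw [h3] at h2
  unfold tau at h2
  linarith

end Pool.Agent.PFR
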