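import Pool.Agent.PFR.Table
import Pool.Agent.PFR.Bsg
import Pool.Agent.PFR.Min

/-!
# The minimiser of tau has distance zero
-/

namespace Pool.Agent.PFR

variable {G : Type*} [AddCommGroup G] [Fintype G]

section

variable {r s p q : G → ℝ}

/-- (a) -/
theorem main_a (hr : IsProb r) (hs : IsProb s) {η : ℝ} (hη : 0 ≤ η) (hmin : IsMin η r s p q) :
    dist p q ≤ ent (conv (conv p q) (conv p q)) - ent (conv p q) +
      η * ((ent (conv p q) - ent p) / 2 + (ent (conv p q) - ent q) / 2) := by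
  have hp := hmin.left
  have hq := hmin.right
  have h1 := hmin.le (conv p q) (conv q p) (isProb_conv hp hq) (isProb_conv hq hp)
  have h2 := dist_conv_le hr hp hq
  have h3 := dist_conv_le hs hq hp
  unfold tau at h1
  have h4 : dist (conv p q) (conv q p) = ent (conv (conv p q) (conv p q)) - ent (conv p q) := by
    unfold dist
    rw [conv_comm q p]
    ring
  rw [h4] at h1
  rw [conv_comm q p] at h3 h1
  have h5 : η * (dist r (conv p q) + dist s (conv p q)) ≤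
      η * ((dist r p + (ent (conv p q) - ent p) / 2) + (dist s q + (ent (conv p q) - ent q) / 2)) :=
    mul_le_mul_of_nonneg_left (add_le_add h2 h3) hη
  nlinarith [h5, h1]

/-- (c) -/
theorem main_c (hr : IsProb r) (hs : IsProb s) {η : ℝ} (hη : 0 ≤ η) (hmin : IsMin η r s p q) :
    dist p q ≤ ent (conv (conv p q) (conv p q)) - (ent (conv p p) + ent (conv q q)) / 2 +
      η * ((ent (conv p p) - ent p) / 2 + (ent (conv q q) - ent q) / 2) := by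
  have hp := hmin.left
  have hq := hmin.right
  have h1 := hmin.le (conv p p) (conv q q) (isProb_conv hp hp) (isProb_conv hq hq)
  have h2 := dist_conv_le hr hp hp
  have h3 := dist_conv_le hs hq hq
  unfold tau at h1
  have h4 : dist (conv p p) (conv q q) =
      ent (conv (conv p q) (conv p q)) - (ent (conv p p) + ent (conv q q)) / 2 := by
    unfold dist
    have : conv (conv p p) (conv q q) = conv (conv p q) (conv p q) := by
      rw [conv_assoc, ← conv_assoc p q q, conv_comm (conv p q) q, ← conv_assoc]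
    rw [this]
  rw [h4] at h1
  have h5 : η * (dist r (conv p p) + dist s (conv q q)) ≤
      η * ((dist r p + (ent (conv p p) - ent p) / 2) + (dist s q + (ent (conv q q) - ent q) / 2)) :=
    mul_le_mul_of_nonneg_left (add_le_add h2 h3) hη
  nlinarith [h5, h1]

/-- (b) -/
theorem main_b (h2 : ∀ x : G, x + x = 0) (hr : IsProb r) (hs : IsProb s) {η : ℝ} (hη : 0 ≤ η)
    (hmin : IsMin η r s p q) :
    dist p q ≤
      H (P4 p q) (fun ω => (ω.1 + ω.2.1, ω.2.2.1 + ω.2.1, ω.1 + ω.2.1 + (ω.2.2.1 + ω.2.2.2))) -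
        (ent p + ent q + ent (conv p q)) +
      η * ((ent (conv p q) - ent q) / 2 + (ent (conv p q) - ent p) / 2) := by
  have hp := hmin.left
  have hq := hmin.right
  have hP := isProb_P4 hp hq
  have h1 := min_cond hmin hP (fun ω => ω.1) (fun ω => ω.2.1)
    (fun ω => (ω.1 + ω.2.2.2, ω.2.1 + ω.2.2.1))
  rw [dcond_P4_b h2 hp hq] at h1
  obtain ⟨e1, e2, e3⟩ := H_P4_b hp hq
  have h3 := dref_le hr hP (fun ω => ω.1) (fun ω => (ω.1 + ω.2.2.2, ω.2.1 + ω.2.2.1))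
  have h4 := dref_le hs hP (fun ω => ω.2.1) (fun ω => (ω.1 + ω.2.2.2, ω.2.1 + ω.2.2.1))
  rw [e1, e2, H, law_P4_X1 hp hq] at h3
  rw [e1, e3, H, law_P4_X2 hp hq] at h4
  refine h1.trans (add_le_add_right (mul_le_mul_of_nonneg_left ?_ hη) _)
  linarith

/-- (d) -/
theorem main_d (h2 : ∀ x : G, x + x = 0) (hr : IsProb r) (hs : IsProb s) {η : ℝ} (hη : 0 ≤ η)
    (hmin : IsMin η r s p q) :
    dist p q ≤
      H (P4 p q) (fun ω => (ω.1 + ω.2.1, ω.2.2.1 + ω.2.1, ω.1 + ω.2.1 + (ω.2.2.1 + ω.2.2.2))) -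
        (ent p + ent q) - (ent (conv p p) + ent (conv q q)) / 2 +
      η * ((ent (conv p p) - ent p) / 2 + (ent (conv q q) - ent q) / 2) := by
  have hp := hmin.left
  have hq := hmin.right
  have hP := isProb_P4 hp hq
  have h1 := min_cond hmin hP (fun ω => ω.1) (fun ω => ω.2.1)
    (fun ω => (ω.1 + ω.2.2.1, ω.2.1 + ω.2.2.2))
  rw [dcond_P4_d h2 hp hq] at h1
  obtain ⟨e1, e2, e3⟩ := H_P4_d hp hq
  have h3 := dref_le hr hP (fun ω => ω.1) (fun ω => (ω.1 + ω.2.2.1, ω.2.1 + ω.2.2.2))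
  have h4 := dref_le hs hP (fun ω => ω.2.1) (fun ω => (ω.1 + ω.2.2.1, ω.2.1 + ω.2.2.2))
  rw [e1, e2, H, law_P4_X1 hp hq] at h3
  rw [e1, e3, H, law_P4_X2 hp hq] at h4
  refine h1.trans (add_le_add_right (mul_le_mul_of_nonneg_left ?_ hη) _)
  linarith

/-- one of the six inequalities of the endgame -/
theorem main_e_one (h2 : ∀ x : G, x + x = 0) {η : ℝ} (hη : 0 ≤ η)
    (hmin : IsMin η r s p q) (A B C : G × G × G × G → G)
    (hABC : ∀ ω, A ω + B ω = C ω) {Q a' b' c' : ℝ}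
    (hQ : H (P4 p q) (fun ω => (A ω, B ω, ω.1 + ω.2.1 + (ω.2.2.1 + ω.2.2.2))) = Q)
    (ha : H (P4 p q) (fun ω => (A ω, ω.1 + ω.2.1 + (ω.2.2.1 + ω.2.2.2))) = a')
    (hb : H (P4 p q) (fun ω => (B ω, ω.1 + ω.2.1 + (ω.2.2.1 + ω.2.2.2))) = b')
    (hc : H (P4 p q) (fun ω => (C ω, ω.1 + ω.2.1 + (ω.2.2.1 + ω.2.2.2))) = c') {x y : ℝ}
    (hA : dref r (P4 p q) A (fun ω => (C ω, ω.1 + ω.2.1 + (ω.2.2.1 + ω.2.2.2))) - dist r p ≤ x)
    (hB : dref s (P4 p q) B (fun ω => (C ω, ω.1 + ω.2.1 + (ω.2.2.1 + ω.2.2.2))) - dist s q ≤ y) :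
    dist p q ≤ 2 * a' + 2 * b' + 2 * c' - 3 * Q - 3 * ent (conv (conv p q) (conv p q)) +
      η * (x + y) := by
  have hp := hmin.left
  have hq := hmin.right
  have hP := isProb_P4 hp hq
  have h1 := min_cond hmin hP A B (fun ω => (C ω, ω.1 + ω.2.1 + (ω.2.2.1 + ω.2.2.2)))
  have h3 := dcond_bsg h2 hP A B (fun ω => ω.1 + ω.2.1 + (ω.2.2.1 + ω.2.2.2))
  simp only [hABC] at h3
  rw [hQ, ha, hb, hc, H, law_P4_S hp hq] at h3
  have h4 := mul_le_mul_of_nonneg_left (add_le_add hA hB) hη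
  linarith

theorem dref_bound {r p t : G → ℝ} (hr : IsProb r) (hp : IsProb p) (ht : IsProb t)
    {Ω J : Type*} [Fintype Ω] [Fintype J] {P : Ω → ℝ} (hP : IsProb P) (A : Ω → G) (C : Ω → J)
    (hA : law P A = conv p t) {Q c' : ℝ} (hQ : H P (fun ω => (A ω, C ω)) = Q) (hc : H P C = c') :
    dref r P A C - dist r p ≤ (2 * ent (conv p t) - ent p + c' - Q) / 2 := by
  have h1 := dref_le hr hP A C
  rw [hQ, hc, H, hA] at h1
  have h3 := dist_conv_le hr hp ht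
  linarith

/-- the joint entropy of any two of `U, V, W` with `S` is the same -/
theorem H_ker_U (A B : G × G × G × G → G)
    (h : ∀ ω ω' : G × G × G × G, ω.1 + ω.2.1 + (ω.2.2.1 + ω.2.2.2) = ω'.1 + ω'.2.1 + (ω'.2.2.1 + ω'.2.2.2) →
      ((A ω = A ω' ∧ B ω = B ω') ↔
        (ω.1 + ω.2.1 = ω'.1 + ω'.2.1 ∧ ω.2.2.1 + ω.2.1 = ω'.2.2.1 + ω'.2.1))) :
    H (P4 p q) (fun ω => (A ω, B ω, ω.1 + ω.2.1 + (ω.2.2.1 + ω.2.2.2))) =
      H (P4 p q) (fun ω => (ω.1 + ω.2.1, ω.2.2.1 + ω.2.1, ω.1 + ω.2.1 + (ω.2.2.1 + ω.2.2.2))) := by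
  apply H_eq_of_ker
  intro ω ω' _ _
  simp only [Prod.mk.injEq]
  constructor
  · rintro ⟨h1, h3, h4⟩
    exact ⟨((h ω ω' h4).1 ⟨h1, h3⟩).1, ((h ω ω' h4).1 ⟨h1, h3⟩).2, h4⟩
  · rintro ⟨h1, h3, h4⟩
    exact ⟨((h ω ω' h4).2 ⟨h1, h3⟩).1, ((h ω ω' h4).2 ⟨h1, h3⟩).2, h4⟩

theorem U_add_V (h2 : ∀ x : G, x + x = 0) (ω : G × G × G × G) :
    (ω.1 + ω.2.1) + (ω.2.2.1 + ω.2.1) = ω.1 + ω.2.2.1 := by
  have := h2 ω.2.1
  calc (ω.1 + ω.2.1) + (ω.2.2.1 + ω.2.1) = ω.1 + ω.2.2.1 + (ω.2.1 + ω.2.1) := by abel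
    _ = _ := by rw [this, add_zero]

theorem U_add_W (h2 : ∀ x : G, x + x = 0) (ω : G × G × G × G) :
    (ω.1 + ω.2.1) + (ω.1 + ω.2.2.1) = ω.2.2.1 + ω.2.1 := by
  have := h2 ω.1
  calc (ω.1 + ω.2.1) + (ω.1 + ω.2.2.1) = ω.2.2.1 + ω.2.1 + (ω.1 + ω.1) := by abel
    _ = _ := by rw [this, add_zero]

theorem V_add_W (h2 : ∀ x : G, x + x = 0) (ω : G × G × G × G) :
    (ω.2.2.1 + ω.2.1) + (ω.1 + ω.2.2.1) = ω.1 + ω.2.1 := by
  have := h2 ω.2.2.1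
  calc (ω.2.2.1 + ω.2.1) + (ω.1 + ω.2.2.1) = ω.1 + ω.2.1 + (ω.2.2.1 + ω.2.2.1) := by abel
    _ = _ := by rw [this, add_zero]

/-- (e) -/
theorem main_e (h2 : ∀ x : G, x + x = 0) (hr : IsProb r) (hs : IsProb s) {η : ℝ} (hη : 0 ≤ η)
    (hmin : IsMin η r s p q) {Q : ℝ}
    (hQ : H (P4 p q) (fun ω => (ω.1 + ω.2.1, ω.2.2.1 + ω.2.1,
      ω.1 + ω.2.1 + (ω.2.2.1 + ω.2.2.2))) = Q) :
    6 * dist p q ≤ 6 * (8 * ent (conv p q) + 2 * (ent (conv p p) + ent (conv q q)) - 3 * Q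
        - 3 * ent (conv (conv p q) (conv p q))) +
      η * (16 * ent (conv p q) + 4 * (ent (conv p p) + ent (conv q q))
        - 3 * (ent p + ent q) - 6 * Q) := by
  have hp := hmin.left
  have hq := hmin.right
  have hP := isProb_P4 hp hq
  have c1 := fun ω => U_add_V h2 ω
  have c1' : ∀ ω : G × G × G × G, (ω.2.2.1 + ω.2.1) + (ω.1 + ω.2.1) = ω.1 + ω.2.2.1 := fun ω => by
    rw [add_comm]; exact c1 ω
  have c2 := fun ω => U_add_W h2 ω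
  have c2' : ∀ ω : G × G × G × G, (ω.1 + ω.2.2.1) + (ω.1 + ω.2.1) = ω.2.2.1 + ω.2.1 := fun ω => by
    rw [add_comm]; exact c2 ω
  have c3 := fun ω => V_add_W h2 ω
  have c3' : ∀ ω : G × G × G × G, (ω.1 + ω.2.2.1) + (ω.2.2.1 + ω.2.1) = ω.1 + ω.2.1 := fun ω => by
    rw [add_comm]; exact c3 ω
  -- joint entropies
  have qUV := hQ
  have qVU : H (P4 p q) (fun ω => (ω.2.2.1 + ω.2.1, ω.1 + ω.2.1,
      ω.1 + ω.2.1 + (ω.2.2.1 + ω.2.2.2))) = Q := by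
    rw [H_ker_U _ _ (fun ω ω' _ => by tauto), hQ]
  have qUW : H (P4 p q) (fun ω => (ω.1 + ω.2.1, ω.1 + ω.2.2.1,
      ω.1 + ω.2.1 + (ω.2.2.1 + ω.2.2.2))) = Q := by
    rw [H_ker_U _ _ (fun ω ω' _ => ?_), hQ]
    constructor
    · rintro ⟨e1, e2⟩
      refine ⟨e1, ?_⟩
      rw [← c2, ← c2, e1, e2]
    · rintro ⟨e1, e2⟩
      refine ⟨e1, ?_⟩
      rw [← c1, ← c1, e1, e2]
  have qWU : H (P4 p q) (fun ω => (ω.1 + ω.2.2.1, ω.1 + ω.2.1,
      ω.1 + ω.2.1 + (ω.2.2.1 + ω.2.2.2))) = Q := by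
    rw [H_ker_U _ _ (fun ω ω' _ => ?_), hQ]
    constructor
    · rintro ⟨e1, e2⟩
      refine ⟨e2, ?_⟩
      rw [← c2, ← c2, e1, e2]
    · rintro ⟨e1, e2⟩
      refine ⟨?_, e1⟩
      rw [← c1, ← c1, e1, e2]
  have qVW : H (P4 p q) (fun ω => (ω.2.2.1 + ω.2.1, ω.1 + ω.2.2.1,
      ω.1 + ω.2.1 + (ω.2.2.1 + ω.2.2.2))) = Q := by
    rw [H_ker_U _ _ (fun ω ω' _ => ?_), hQ]
    constructor
    · rintro ⟨e1, e2⟩
      refine ⟨?_, e1⟩
      rw [← c3, ← c3, e1, e2]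
    · rintro ⟨e1, e2⟩
      refine ⟨e2, ?_⟩
      rw [← c1, ← c1, e1, e2]
  have qWV : H (P4 p q) (fun ω => (ω.1 + ω.2.2.1, ω.2.2.1 + ω.2.1,
      ω.1 + ω.2.1 + (ω.2.2.1 + ω.2.2.2))) = Q := by
    rw [H_ker_U _ _ (fun ω ω' _ => ?_), hQ]
    constructor
    · rintro ⟨e1, e2⟩
      refine ⟨?_, e2⟩
      rw [← c3, ← c3, e1, e2]
    · rintro ⟨e1, e2⟩
      refine ⟨?_, e2⟩
      rw [← c1, ← c1, e1, e2]
  have hU := H_P4_US hp hq
  have hV := H_P4_VS hp hq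
  have hW := H_P4_WS hp hq
  have lU := law_P4_U hp hq
  have lV := law_P4_V hp hq
  have lW := law_P4_W hp hq
  have lW' := law_P4_W' hp hq
  have lU' : law (P4 p q) (fun ω => ω.1 + ω.2.1) = conv q p := by rw [lU, conv_comm]
  have lV' : law (P4 p q) (fun ω => ω.2.2.1 + ω.2.1) = conv q p := by rw [lV, conv_comm]
  -- bounds for the first slot
  have xUV := dref_bound hr hp hq hP (fun ω => ω.1 + ω.2.1) _ lU qUV hV
  have xUW := dref_bound hr hp hq hP (fun ω => ω.1 + ω.2.1) _ lU qUW hW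
  have xVU := dref_bound hr hp hq hP (fun ω => ω.2.2.1 + ω.2.1) _ lV qVU hU
  have xVW := dref_bound hr hp hq hP (fun ω => ω.2.2.1 + ω.2.1) _ lV qVW hW
  have xWU := dref_bound hr hp hp hP (fun ω => ω.1 + ω.2.2.1) _ lW qWU hU
  have xWV := dref_bound hr hp hp hP (fun ω => ω.1 + ω.2.2.1) _ lW qWV hV
  -- bounds for the second slot
  have yUV := dref_bound hs hq hp hP (fun ω => ω.1 + ω.2.1) _ lU' qUV hV
  have yUW := dref_bound hs hq hp hP (fun ω => ω.1 + ω.2.1) _ lU' qUW hW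
  have yVU := dref_bound hs hq hp hP (fun ω => ω.2.2.1 + ω.2.1) _ lV' qVU hU
  have yVW := dref_bound hs hq hp hP (fun ω => ω.2.2.1 + ω.2.1) _ lV' qVW hW
  have sh : ∀ ω : G × G × G × G, ω.1 + ω.2.2.1 =
      ω.2.1 + ω.2.2.2 + (ω.1 + ω.2.1 + (ω.2.2.1 + ω.2.2.2)) := by
    intro ω
    calc ω.1 + ω.2.2.1 = ω.1 + ω.2.2.1 + (ω.2.1 + ω.2.1) + (ω.2.2.2 + ω.2.2.2) := by
          rw [h2, h2, add_zero, add_zero]
      _ = _ := by abel
  have sh' : ∀ ω : G × G × G × G, ω.2.1 + ω.2.2.2 =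
      ω.1 + ω.2.2.1 + (ω.1 + ω.2.1 + (ω.2.2.1 + ω.2.2.2)) := by
    intro ω
    calc ω.2.1 + ω.2.2.2 = ω.2.1 + ω.2.2.2 + (ω.1 + ω.1) + (ω.2.2.1 + ω.2.2.1) := by
          rw [h2, h2, add_zero, add_zero]
      _ = _ := by abel
  have wU : H (P4 p q) (fun ω => (ω.2.1 + ω.2.2.2, ω.1 + ω.2.1,
      ω.1 + ω.2.1 + (ω.2.2.1 + ω.2.2.2))) = Q := by
    rw [← qWU]
    apply H_eq_of_ker
    intro ω ω' _ _
    simp only [Prod.mk.injEq]
    constructor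
    · rintro ⟨e1, e2, e3⟩
      exact ⟨by rw [sh, sh ω', e1, e3], e2, e3⟩
    · rintro ⟨e1, e2, e3⟩
      exact ⟨by rw [sh', sh' ω', e1, e3], e2, e3⟩
  have wV : H (P4 p q) (fun ω => (ω.2.1 + ω.2.2.2, ω.2.2.1 + ω.2.1,
      ω.1 + ω.2.1 + (ω.2.2.1 + ω.2.2.2))) = Q := by
    rw [← qWV]
    apply H_eq_of_ker
    intro ω ω' _ _
    simp only [Prod.mk.injEq]
    constructor
    · rintro ⟨e1, e2, e3⟩
      exact ⟨by rw [sh, sh ω', e1, e3], e2, e3⟩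
    · rintro ⟨e1, e2, e3⟩
      exact ⟨by rw [sh', sh' ω', e1, e3], e2, e3⟩
  have yW'U := dref_bound hs hq hq hP (fun ω => ω.2.1 + ω.2.2.2) _ lW' wU hU
  have yW'V := dref_bound hs hq hq hP (fun ω => ω.2.1 + ω.2.2.2) _ lW' wV hV
  have s1 := dref_shift s (P4 p q) (fun ω => ω.2.1 + ω.2.2.2) (fun ω => ω.1 + ω.2.2.1)
    (fun ω => (ω.1 + ω.2.1, ω.1 + ω.2.1 + (ω.2.2.1 + ω.2.2.2))) (fun c => c.2) sh
  have s2 := dref_shift s (P4 p q) (fun ω => ω.2.1 + ω.2.2.2) (fun ω => ω.1 + ω.2.2.1)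
    (fun ω => (ω.2.2.1 + ω.2.1, ω.1 + ω.2.1 + (ω.2.2.1 + ω.2.2.2))) (fun c => c.2) sh
  rw [← s1] at yW'U
  rw [← s2] at yW'V
  have k1 := main_e_one h2 hη hmin _ _ _ c1 qUV hU hV hW xUW yVW
  have k2 := main_e_one h2 hη hmin _ _ _ c1' qVU hV hU hW xVW yUW
  have k3 := main_e_one h2 hη hmin _ _ _ c2 qUW hU hW hV xUV yW'V
  have k4 := main_e_one h2 hη hmin _ _ _ c2' qWU hW hU hV xWV yUV
  have k5 := main_e_one h2 hη hmin _ _ _ c3 qVW hV hW hU xVU yW'U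
  have k6 := main_e_one h2 hη hmin _ _ _ c3' qWV hW hV hU xWU yVU
  rw [conv_comm q p] at *
  nlinarith [k1, k2, k3, k4, k5, k6]

/-- the minimiser of `tau (1/9)` has distance zero -/
theorem dist_min_le_zero (h2 : ∀ x : G, x + x = 0) (hr : IsProb r) (hs : IsProb s)
    (hmin : IsMin (1 / 9) r s p q) : dist p q ≤ 0 := by
  have hη : (0:ℝ) ≤ 1 / 9 := by norm_num
  have ha := main_a hr hs hη hmin
  have hb := main_b h2 hr hs hη hmin
  have hc := main_c hr hs hη hmin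
  have hd := main_d h2 hr hs hη hmin
  have he := main_e h2 hr hs hη hmin rfl
  have hk : dist p q = ent (conv p q) - (ent p + ent q) / 2 := rfl
  linarith

end

end Pool.Agent.PFR
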