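import Pool.Agent.PFR.Conv

/-!
# Distance zero
-/

namespace Pool.Agent.PFR

variable {G : Type*} [AddCommGroup G] [Fintype G]

/-- Strict concavity: if `ent (conv p q) = ent p` then all translates `p (· - y)`, `q y ≠ 0`, coincide.
(`conv p q z = ∑ y, q y * p (z - y)`; equality in Jensen for the strictly concave `negMulLog`
(`Real.strictConcaveOn_negMulLog`) at every `z`.) -/
theorem translate_eq {p q : G → ℝ} (hp : IsProb p) (hq : IsProb q) (h : ent (conv p q) ≤ ent p)
    {y y' : G} (hy : q y ≠ 0) (hy' : q y' ≠ 0) (z : G) : p (z - y) = p (z - y') := by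
  have hconv : ∀ z, conv p q z = ∑ y, q y • p (z - y) := by
    intro z
    rw [conv_comm]
    rfl
  have hJ : ∀ z, ∑ y, q y • Real.negMulLog (p (z - y)) ≤ Real.negMulLog (conv p q z) := by
    intro z
    rw [hconv]
    exact Real.concaveOn_negMulLog.le_map_sum (fun i _ => hq.nonneg i) hq.sum_eq
      (fun i _ => hp.nonneg _)
  have hsum : ∑ z, ∑ y, q y • Real.negMulLog (p (z - y)) = ent p := by
    rw [Finset.sum_comm]
    have h1 : ∀ y : G, ∑ z, q y • Real.negMulLog (p (z - y)) = q y * ent p := by
      intro y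
      rw [← Finset.smul_sum, smul_eq_mul]
      congr 1
      exact Equiv.sum_comp (Equiv.subRight y) (fun z => Real.negMulLog (p z))
    rw [Finset.sum_congr rfl fun y _ => h1 y, ← Finset.sum_mul, hq.sum_eq, one_mul]
  have hz : ∀ z, Real.negMulLog (conv p q z) - ∑ y, q y • Real.negMulLog (p (z - y)) = 0 := by
    have h1 : ∑ z, (Real.negMulLog (conv p q z) - ∑ y, q y • Real.negMulLog (p (z - y))) = 0 := by
      apply le_antisymm
      · rw [Finset.sum_sub_distrib, hsum]
        have h2 : ∑ z, Real.negMulLog (conv p q z) = ent (conv p q) := rfl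
        rw [h2]
        linarith
      · exact Finset.sum_nonneg fun z _ => sub_nonneg.2 (hJ z)
    intro z
    exact (Finset.sum_eq_zero_iff_of_nonneg (fun z _ => sub_nonneg.2 (hJ z))).1 h1 z
      (Finset.mem_univ z)
  have key := (Real.strictConcaveOn_negMulLog.map_sum_eq_iff' (t := Finset.univ) (w := q)
    (p := fun y => p (z - y)) (fun i _ => hq.nonneg i) hq.sum_eq (fun i _ => hp.nonneg _)).1 (by
      rw [← hconv]
      exact sub_eq_zero.1 (hz z))
  rw [key y (Finset.mem_univ _) hy, key y' (Finset.mem_univ _) hy']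

private theorem unif_of {p : G → ℝ} (hp : IsProb p) (V : AddSubgroup G) {x : G}
    (hx : p x ≠ 0) (h1 : ∀ v ∈ V, ∀ z, p (z + v) = p z) (h2 : ∀ z, p z ≠ 0 → z - x ∈ V) (z : G) :
    p z = unif V (z - x) := by
  classical
  have hval : ∀ z, p z = if z - x ∈ V then p x else 0 := by
    intro z
    by_cases h : z - x ∈ V
    · rw [if_pos h]
      have := h1 _ h x
      rwa [add_sub_cancel] at this
    · rw [if_neg h]
      by_contra h3
      exact h (h2 z h3)
  have hs : ∑ z, (if z - x ∈ V then p x else 0) = (Nat.card V : ℝ) * p x := by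
    have e1 : ∑ z, (if z - x ∈ V then p x else 0) = ∑ z, (if z ∈ V then p x else 0) :=
      Equiv.sum_comp (Equiv.subRight x) (fun z => if z ∈ V then p x else 0)
    rw [e1, ← Finset.sum_filter, Finset.sum_const, nsmul_eq_mul]
    congr 2
    haveI := Fintype.ofFinite V
    rw [Nat.card_eq_fintype_card]
    exact (Fintype.card_of_subtype _ (fun x => by simp)).symm
  have h3 : (Nat.card V : ℝ) * p x = 1 := by
    rw [← hs, ← hp.sum_eq]
    exact Finset.sum_congr rfl fun z _ => (hval z).symm
  have h4 : p x = 1 / (Nat.card V : ℝ) := by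
    have h5 : (Nat.card V : ℝ) ≠ 0 := Nat.cast_ne_zero.2 Nat.card_pos.ne'
    field_simp
    linarith
  rw [hval z, unif, h4]

/-- Distance zero.  `ent p, ent q ≤ ent (conv p q)` (`ent_le_ent_conv`, `conv_comm`), so `dist p q ≤ 0` gives equality in both.
`translate_eq`: `p` is invariant under `D₂ = {y - y' | q y, q y' ≠ 0}`, `q` under `D₁ = {x - x' | p x, p x' ≠ 0}`.
Let `V` be the stabiliser of `p` (a subgroup, contains `D₂`) and `W` the stabiliser of `q` (contains `D₁`). The support of `p` is
`V`-invariant and lies in a coset of `W`, so `V ≤ W`; symmetrically `W ≤ V`.  So the support of `p` is a coset of `V`, on which `p` is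
constant, and the same for `q`. -/
theorem eq_unif_of_dist_le_zero {p q : G → ℝ} (hp : IsProb p) (hq : IsProb q) (h : dist p q ≤ 0) :
    ∃ (V : AddSubgroup G) (x y : G), (∀ z, p z = unif V (z - x)) ∧ (∀ z, q z = unif V (z - y)) := by
  have e1 := ent_le_ent_conv hp hq
  have e2 := ent_le_ent_conv hq hp
  rw [conv_comm q p] at e2
  unfold dist at h
  have e3 : ent (conv p q) ≤ ent p := by linarith
  have e4 : ent (conv q p) ≤ ent q := by
    rw [conv_comm q p]
    linarith
  have ex : ∀ r : G → ℝ, IsProb r → ∃ x, r x ≠ 0 := by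
    intro r hr
    by_contra h1
    push Not at h1
    have h2 := hr.sum_eq
    rw [Finset.sum_congr rfl fun x _ => h1 x, Finset.sum_const_zero] at h2
    exact zero_ne_one h2
  obtain ⟨x, hx⟩ := ex p hp
  obtain ⟨y, hy⟩ := ex q hq
  let st : (G → ℝ) → AddSubgroup G := fun r =>
    { carrier := {v | ∀ z, r (z + v) = r z}
      add_mem' := by
        intro a b ha hb z
        rw [← add_assoc, hb, ha]
      zero_mem' := by
        intro z
        rw [add_zero]
      neg_mem' := by
        intro a ha z
        rw [← ha (z + -a), neg_add_cancel_right] }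
  have hA : ∀ a a' : G, q a ≠ 0 → q a' ≠ 0 → a' - a ∈ st p := by
    intro a a' ha ha' z
    have := translate_eq hp hq e3 ha ha' (z + a')
    rw [add_sub_cancel_right] at this
    rw [← this]
    congr 1
    abel
  have hB : ∀ a a' : G, p a ≠ 0 → p a' ≠ 0 → a' - a ∈ st q := by
    intro a a' ha ha' z
    have := translate_eq hq hp e4 ha ha' (z + a')
    rw [add_sub_cancel_right] at this
    rw [← this]
    congr 1
    abel
  have hVW : st p ≤ st q := by
    intro v hv
    have h1 : p (x + v) ≠ 0 := by
      rw [hv x]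
      exact hx
    have := hB x (x + v) hx h1
    rwa [add_sub_cancel_left] at this
  have hWV : st q ≤ st p := by
    intro v hv
    have h1 : q (y + v) ≠ 0 := by
      rw [hv y]
      exact hy
    have := hA y (y + v) hy h1
    rwa [add_sub_cancel_left] at this
  refine ⟨st p, x, y, ?_, ?_⟩
  · exact unif_of hp (st p) hx (fun v hv z => hv z) (fun z hz => hWV (hB x z hx hz))
  · exact unif_of hq (st p) hy (fun v hv z => hVW hv z) (fun z hz => hA y z hy hz)

end Pool.Agent.PFR
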