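import Pool.Agent.PFR.Main
import Pool.Agent.PFR.Zero

/-!
# The polynomial Freiman–Ruzsa theorem in characteristic two, entropic form
-/

namespace Pool.Agent.PFR

variable {G : Type*} [AddCommGroup G] [Fintype G]

/-- **Entropic PFR** (Gowers–Green–Manners–Tao), constant `11`. -/
theorem pfr (h2 : ∀ x : G, x + x = 0) {r s : G → ℝ} (hr : IsProb r) (hs : IsProb s) :
    ∃ V : AddSubgroup G, dist r (unif V) + dist s (unif V) ≤ 11 * dist r s := by
  obtain ⟨p, q, hmin⟩ := exists_min (1 / 9) r s
  have h0 := dist_min_le_zero h2 hr hs hmin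
  obtain ⟨V, x, y, hx, hy⟩ := eq_unif_of_dist_le_zero hmin.left hmin.right h0
  refine ⟨V, ?_⟩
  have h1 := hmin.le s r hs hr
  have e1 : dist r p = dist r (unif V) := by
    rw [← dist_shift r (unif V) x]
    congr 1
    funext z
    exact hx z
  have e2 : dist s q = dist s (unif V) := by
    rw [← dist_shift s (unif V) y]
    congr 1
    funext z
    exact hy z
  have h3 : 0 ≤ dist p q := dist_nonneg hmin.left hmin.right
  unfold tau at h1
  rw [e1, e2, dist_comm s r] at h1
  linarith

/-- the case `r = s` -/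
theorem pfr_self (h2 : ∀ x : G, x + x = 0) {r : G → ℝ} (hr : IsProb r) :
    ∃ V : AddSubgroup G, dist r (unif V) ≤ 11 / 2 * dist r r := by
  obtain ⟨V, hV⟩ := pfr h2 hr hr
  exact ⟨V, by linarith⟩

end Pool.Agent.PFR
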