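import Pool.Agent.PFR.Ent

/-!
# Submodularity of entropy
-/

namespace Pool.Agent.PFR

variable {Ω S T U : Type*} [Fintype Ω] [Fintype S] [Fintype T] [Fintype U]

omit [Fintype T] [Fintype U] in
private theorem sum_law (P : Ω → ℝ) (X : Ω → S) (f : S → ℝ) :
    ∑ ω, P ω * f (X ω) = ∑ s, law P X s * f s := by
  classical
  have h1 : ∀ s, law P X s * f s = ∑ ω, if X ω = s then P ω * f (X ω) else 0 := by
    intro s
    unfold law
    rw [Finset.sum_mul]
    refine Finset.sum_congr rfl fun ω _ => ?_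
    by_cases h : X ω = s
    · simp [h]
    · simp [h]
  rw [Finset.sum_congr rfl (fun s _ => h1 s), Finset.sum_comm]
  refine Finset.sum_congr rfl fun ω _ => ?_
  rw [Finset.sum_ite_eq]
  simp

omit [Fintype T] [Fintype U] in
private theorem sum_marg (P : Ω → ℝ) (X : Ω → S) (Z : Ω → U) (z : U) :
    ∑ x, law P (fun ω => (X ω, Z ω)) (x, z) = law P Z z := by
  classical
  unfold law
  rw [Finset.sum_comm]
  refine Finset.sum_congr rfl fun ω _ => ?_
  by_cases h : Z ω = z
  · simp [h]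
  · simp [h]

/-- By `H_eq_sum` the claim is `∑ ω, P ω * log (p_{XZ} p_{YZ} / (p_{XYZ} p_Z)) ≤ 0` where `p_X = law P X (X ω)` etc. (all positive
if `P ω ≠ 0`, `law_pos`).  Use `log t ≤ t - 1`.  Then `∑ ω, P ω * p_{XZ} p_{YZ} / (p_{XYZ} p_Z)` equals the sum over the triples
`(x, y, z)` with `p_{XYZ} > 0` of `p_{XZ} p_{YZ} / p_Z`, which is at most `∑_{x,y,z} p_{XZ} p_{YZ} / p_Z = ∑_z p_Z = 1`
(write `∑ ω, P ω * f (X ω, Y ω, Z ω) = ∑ t, law P (X,Y,Z) t * f t`). -/
theorem H_submod {P : Ω → ℝ} (hP : IsProb P) (X : Ω → S) (Y : Ω → T) (Z : Ω → U) :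
    H P (fun ω => (X ω, Y ω, Z ω)) + H P Z ≤
      H P (fun ω => (X ω, Z ω)) + H P (fun ω => (Y ω, Z ω)) := by
  rw [H_eq_sum, H_eq_sum, H_eq_sum, H_eq_sum]
  set a := law P (fun ω => (X ω, Z ω)) with ha
  set b := law P (fun ω => (Y ω, Z ω)) with hb
  set c := law P (fun ω => (X ω, Y ω, Z ω)) with hc
  set d := law P Z with hd
  have ha0 : ∀ p, 0 ≤ a p := fun p => law_nonneg hP _ p
  have hb0 : ∀ p, 0 ≤ b p := fun p => law_nonneg hP _ p
  have hc0 : ∀ p, 0 ≤ c p := fun p => law_nonneg hP _ p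
  have hd0 : ∀ p, 0 ≤ d p := fun p => law_nonneg hP _ p
  obtain ⟨r, hr⟩ : ∃ r : S × T × U → ℝ, ∀ t, r t =
      a (t.1, t.2.2) * b (t.2.1, t.2.2) / (c t * d t.2.2) := ⟨_, fun _ => rfl⟩
  have key : ∑ ω, P ω * (Real.log (a (X ω, Z ω)) + Real.log (b (Y ω, Z ω)) -
      Real.log (c (X ω, Y ω, Z ω)) - Real.log (d (Z ω))) ≤ 0 := by
    have h1 : ∀ ω, P ω * (Real.log (a (X ω, Z ω)) + Real.log (b (Y ω, Z ω)) -
        Real.log (c (X ω, Y ω, Z ω)) - Real.log (d (Z ω))) ≤
        P ω * r (X ω, Y ω, Z ω) - P ω := by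
      intro ω
      by_cases h : P ω = 0
      · rw [h]; simp
      · have p1 : 0 < a (X ω, Z ω) := law_pos hP (fun ω => (X ω, Z ω)) h
        have p2 : 0 < b (Y ω, Z ω) := law_pos hP (fun ω => (Y ω, Z ω)) h
        have p3 : 0 < c (X ω, Y ω, Z ω) := law_pos hP (fun ω => (X ω, Y ω, Z ω)) h
        have p4 : 0 < d (Z ω) := law_pos hP Z h
        have h2 := Real.log_le_sub_one_of_pos (div_pos (mul_pos p1 p2) (mul_pos p3 p4))
        rw [Real.log_div (mul_pos p1 p2).ne' (mul_pos p3 p4).ne', Real.log_mul p1.ne' p2.ne',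
          Real.log_mul p3.ne' p4.ne'] at h2
        have h3 : Real.log (a (X ω, Z ω)) + Real.log (b (Y ω, Z ω)) -
            Real.log (c (X ω, Y ω, Z ω)) - Real.log (d (Z ω)) ≤ r (X ω, Y ω, Z ω) - 1 := by
          rw [hr]
          linarith
        have h4 := mul_le_mul_of_nonneg_left h3 (hP.nonneg ω)
        rw [mul_sub (P ω) (r _) 1, mul_one] at h4
        exact h4
    refine (Finset.sum_le_sum fun ω _ => h1 ω).trans ?_
    rw [Finset.sum_sub_distrib, hP.sum_eq, sub_nonpos, sum_law P (fun ω => (X ω, Y ω, Z ω)) r]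
    have h2 : ∀ t : S × T × U, c t * r t ≤ a (t.1, t.2.2) * b (t.2.1, t.2.2) / d t.2.2 := by
      intro t
      rw [hr]
      by_cases h : c t = 0
      · rw [h, zero_mul]
        exact div_nonneg (mul_nonneg (ha0 _) (hb0 _)) (hd0 _)
      · refine le_of_eq ?_
        rw [mul_div_assoc', mul_div_mul_left _ _ h]
    refine (Finset.sum_le_sum fun t _ => h2 t).trans ?_
    rw [Fintype.sum_prod_type]
    have h3 : ∀ x : S, ∑ t : T × U, a (x, t.2) * b (t.1, t.2) / d t.2 =
        ∑ z : U, a (x, z) * (d z / d z) := by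
      intro x
      rw [Fintype.sum_prod_type, Finset.sum_comm]
      refine Finset.sum_congr rfl fun z _ => ?_
      show ∑ y : T, a (x, z) * b (y, z) / d z = _
      rw [← Finset.sum_div, ← Finset.mul_sum, hb, sum_marg P Y Z z, mul_div_assoc]
    rw [Finset.sum_congr rfl (fun x _ => h3 x), Finset.sum_comm]
    have h4 : ∀ z : U, ∑ x : S, a (x, z) * (d z / d z) = d z := by
      intro z
      rw [← Finset.sum_mul, ha, sum_marg P X Z z]
      by_cases h : d z = 0
      · rw [← hd, h, zero_mul]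
      · rw [← hd, div_self h, mul_one]
    rw [Finset.sum_congr rfl (fun z _ => h4 z), (isProb_law hP Z).sum_eq]
  have e : ∑ ω, P ω * (Real.log (a (X ω, Z ω)) + Real.log (b (Y ω, Z ω)) -
      Real.log (c (X ω, Y ω, Z ω)) - Real.log (d (Z ω))) =
      ∑ ω, P ω * Real.log (a (X ω, Z ω)) + ∑ ω, P ω * Real.log (b (Y ω, Z ω)) -
      ∑ ω, P ω * Real.log (c (X ω, Y ω, Z ω)) - ∑ ω, P ω * Real.log (d (Z ω)) := by
    rw [← Finset.sum_add_distrib, ← Finset.sum_sub_distrib, ← Finset.sum_sub_distrib]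
    refine Finset.sum_congr rfl fun ω _ => ?_
    ring
  linarith

/-- `H_submod` with `Z = fun _ => ()`, `H_const`, and `H_eq_of_ker` -/
theorem H_pair_le {P : Ω → ℝ} (hP : IsProb P) (X : Ω → S) (Y : Ω → T) :
    H P (fun ω => (X ω, Y ω)) ≤ H P X + H P Y := by
  have h := H_submod hP X Y (fun _ => ())
  rw [H_const hP, add_zero] at h
  have e1 : H P (fun ω => (X ω, Y ω, ())) = H P (fun ω => (X ω, Y ω)) := by
    apply H_eq_of_ker
    intro ω ω' _ _
    simp
  have e2 : H P (fun ω => (X ω, ())) = H P X := by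
    apply H_eq_of_ker
    intro ω ω' _ _
    simp
  have e3 : H P (fun ω => (Y ω, ())) = H P Y := by
    apply H_eq_of_ker
    intro ω ω' _ _
    simp
  rw [e1, e2, e3] at h
  exact h

/-- `negMulLog (a * b) = b * negMulLog a + a * negMulLog b` (`Real.negMulLog_mul`), laws have sum `1`. -/
theorem H_pair_indep {P : Ω → ℝ} (hP : IsProb P) (X : Ω → S) (Y : Ω → T)
    (h : ∀ s t, law P (fun ω => (X ω, Y ω)) (s, t) = law P X s * law P Y t) :
    H P (fun ω => (X ω, Y ω)) = H P X + H P Y := by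
  unfold H ent
  rw [Fintype.sum_prod_type]
  have h1 : ∀ s, ∑ t, Real.negMulLog (law P (fun ω => (X ω, Y ω)) (s, t)) =
      Real.negMulLog (law P X s) + law P X s * ∑ t, Real.negMulLog (law P Y t) := by
    intro s
    rw [Finset.mul_sum]
    have h2 : ∀ t, Real.negMulLog (law P (fun ω => (X ω, Y ω)) (s, t)) =
        law P Y t * Real.negMulLog (law P X s) + law P X s * Real.negMulLog (law P Y t) := by
      intro t
      rw [h, Real.negMulLog_mul]
    rw [Finset.sum_congr rfl (fun t _ => h2 t), Finset.sum_add_distrib, ← Finset.sum_mul,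
      (isProb_law hP Y).sum_eq, one_mul]
  rw [Finset.sum_congr rfl (fun s _ => h1 s), Finset.sum_add_distrib, ← Finset.sum_mul,
    (isProb_law hP X).sum_eq, one_mul]

end Pool.Agent.PFR
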