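import Pool.Agent.PFR.Conv
import Pool.Agent.PFR.Copies

/-!
# Four independent variables
`X₁ = ω.1`, `X₂ = ω.2.1`, `X₁' = ω.2.2.1`, `X₂' = ω.2.2.2` with laws `p, q, p, q`.  Useful: one lemma computing the law of
`(f (X_i, X_j), g (X_k, X_l))` as a product for each of the three pairings of the four coordinates; `H_pair_indep`, `H_eq_of_ker`, `law_add`.
-/

namespace Pool.Agent.PFR

namespace Tab

section General

variable {Ω₁ Ω₂ Ω Ω' S T : Type*} [Fintype Ω₁] [Fintype Ω₂] [Fintype Ω] [Fintype Ω']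

/-- product weight -/
def pr (P₁ : Ω₁ → ℝ) (P₂ : Ω₂ → ℝ) (ω : Ω₁ × Ω₂) : ℝ := P₁ ω.1 * P₂ ω.2

theorem isProb_pr {P₁ : Ω₁ → ℝ} {P₂ : Ω₂ → ℝ} (h₁ : IsProb P₁) (h₂ : IsProb P₂) :
    IsProb (pr P₁ P₂) where
  nonneg ω := mul_nonneg (h₁.nonneg _) (h₂.nonneg _)
  sum_eq := by
    unfold pr
    rw [Fintype.sum_prod_type, ← Finset.sum_mul_sum, h₁.sum_eq, h₂.sum_eq, one_mul]

theorem isProb_equiv (e : Ω' ≃ Ω) {P' : Ω' → ℝ} {P : Ω → ℝ} (hP : ∀ ω, P' ω = P (e ω))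
    (h : IsProb P) : IsProb P' where
  nonneg ω := by rw [hP]; exact h.nonneg _
  sum_eq := by
    rw [← h.sum_eq]
    exact Fintype.sum_equiv e _ _ hP

theorem law_equiv (e : Ω' ≃ Ω) {P' : Ω' → ℝ} {P : Ω → ℝ} (hP : ∀ ω, P' ω = P (e ω))
    {X' : Ω' → S} {X : Ω → S} (hX : ∀ ω, X' ω = X (e ω)) : law P' X' = law P X := by
  funext s
  unfold law
  refine Fintype.sum_equiv e _ _ (fun ω => ?_)
  rw [hX, hP]

theorem law_congr {P : Ω → ℝ} {X : Ω → S} {X' : Ω → T} {s : S} {t : T}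
    (h : ∀ ω, X ω = s ↔ X' ω = t) : law P X s = law P X' t := by
  unfold law
  refine Finset.sum_congr rfl (fun ω _ => ?_)
  by_cases h1 : X ω = s
  · rw [if_pos h1, if_pos ((h ω).1 h1)]
  · rw [if_neg h1, if_neg (fun h2 => h1 ((h ω).2 h2))]

theorem law_pr_pair (P₁ : Ω₁ → ℝ) (P₂ : Ω₂ → ℝ) (X : Ω₁ → S) (Y : Ω₂ → T) (s : S) (t : T) :
    law (pr P₁ P₂) (fun ω => (X ω.1, Y ω.2)) (s, t) = law P₁ X s * law P₂ Y t := by
  classical
  unfold law pr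
  rw [Fintype.sum_prod_type, Finset.sum_mul_sum]
  refine Finset.sum_congr rfl (fun a _ => Finset.sum_congr rfl (fun b _ => ?_))
  by_cases h1 : X a = s <;> by_cases h2 : Y b = t <;> simp [h1, h2]

theorem law_pr_fst (P₁ : Ω₁ → ℝ) {P₂ : Ω₂ → ℝ} (h₂ : IsProb P₂) (X : Ω₁ → S) :
    law (pr P₁ P₂) (fun ω => X ω.1) = law P₁ X := by
  classical
  funext s
  unfold law pr
  rw [Fintype.sum_prod_type]
  refine Finset.sum_congr rfl (fun a _ => ?_)
  by_cases h1 : X a = s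
  · simp only [h1, if_true]
    rw [← Finset.mul_sum, h₂.sum_eq, mul_one]
  · simp [h1]

theorem law_pr_snd {P₁ : Ω₁ → ℝ} (P₂ : Ω₂ → ℝ) (h₁ : IsProb P₁) (Y : Ω₂ → T) :
    law (pr P₁ P₂) (fun ω => Y ω.2) = law P₂ Y := by
  classical
  funext t
  unfold law pr
  rw [Fintype.sum_prod_type_right]
  refine Finset.sum_congr rfl (fun b _ => ?_)
  by_cases h1 : Y b = t
  · simp only [h1, if_true]
    rw [← Finset.sum_mul, h₁.sum_eq, one_mul]
  · simp [h1]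

theorem H_pr_pair [Fintype S] [Fintype T] {P₁ : Ω₁ → ℝ} {P₂ : Ω₂ → ℝ} (h₁ : IsProb P₁)
    (h₂ : IsProb P₂) (X : Ω₁ → S) (Y : Ω₂ → T) :
    H (pr P₁ P₂) (fun ω => (X ω.1, Y ω.2)) = H P₁ X + H P₂ Y := by
  have h := H_pair_indep (isProb_pr h₁ h₂) (fun ω => X ω.1) (fun ω => Y ω.2) (fun s t => by
    rw [law_pr_pair, law_pr_fst P₁ h₂, law_pr_snd P₂ h₁])
  rw [h, H, H, law_pr_fst P₁ h₂, law_pr_snd P₂ h₁]
  rfl

theorem H_equiv [Fintype S] (e : Ω' ≃ Ω) {P' : Ω' → ℝ} {P : Ω → ℝ} (hP : ∀ ω, P' ω = P (e ω))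
    {X' : Ω' → S} {X : Ω → S} (hX : ∀ ω, X' ω = X (e ω)) : H P' X' = H P X := by
  rw [H, H, law_equiv e hP hX]

end General

variable {G : Type*} [AddCommGroup G] [Fintype G] {p q : G → ℝ}

omit [AddCommGroup G] in
theorem law_pr_one {p q : G → ℝ} (hq : IsProb q) : law (pr p q) (fun z => z.1) = p := by
  rw [law_pr_fst p hq (fun x => x), law_id]

omit [AddCommGroup G] in
theorem law_pr_two {p q : G → ℝ} (hp : IsProb p) : law (pr p q) (fun z => z.2) = q := by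
  rw [law_pr_snd q hp (fun x => x), law_id]

theorem law_pr_add (hp : IsProb p) (hq : IsProb q) :
    law (pr p q) (fun z => z.1 + z.2) = conv p q := by
  refine (law_add (P := pr p q) (fun z : G × G => z.1) (fun z => z.2) (fun a b => ?_)).trans ?_
  · rw [law_pr_pair p q (fun x => x) (fun x => x), law_pr_one hq, law_pr_two hp, law_id, law_id]
  · rw [law_pr_one hq, law_pr_two hp]

theorem H_pr_add (hp : IsProb p) (hq : IsProb q) :
    H (pr p q) (fun z => z.1 + z.2) = ent (conv p q) := by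
  rw [H, law_pr_add hp hq]

/-- `H(X, X + Y)` -/
theorem H_pr_one_add (hp : IsProb p) (hq : IsProb q) :
    H (pr p q) (fun z => (z.1, z.1 + z.2)) = ent p + ent q := by
  have h1 : H (pr p q) (fun z => (z.1, z.1 + z.2)) = H (pr p q) (fun z => (z.1, z.2)) := by
    apply H_eq_of_ker
    intro ω ω' _ _
    simp only [Prod.mk.injEq]
    constructor
    · rintro ⟨h1, h2⟩
      rw [h1] at h2
      exact ⟨h1, add_left_cancel h2⟩
    · rintro ⟨h1, h2⟩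
      rw [h1, h2]
      exact ⟨rfl, rfl⟩
  rw [h1, H_pr_pair hp hq (fun x => x) (fun x => x), H_id, H_id]

/-- the pairing `(X₁, X₂)`, `(X₁', X₂')` -/
def e12 (G : Type*) : G × G × G × G ≃ (G × G) × (G × G) where
  toFun ω := ((ω.1, ω.2.1), (ω.2.2.1, ω.2.2.2))
  invFun z := (z.1.1, z.1.2, z.2.1, z.2.2)
  left_inv _ := rfl
  right_inv _ := rfl

/-- the pairing `(X₁, X₂')`, `(X₂, X₁')` -/
def e14 (G : Type*) : G × G × G × G ≃ (G × G) × (G × G) where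
  toFun ω := ((ω.1, ω.2.2.2), (ω.2.1, ω.2.2.1))
  invFun z := (z.1.1, z.2.1, z.2.2, z.1.2)
  left_inv _ := rfl
  right_inv _ := rfl

/-- the pairing `(X₁, X₁')`, `(X₂, X₂')` -/
def e13 (G : Type*) : G × G × G × G ≃ (G × G) × (G × G) where
  toFun ω := ((ω.1, ω.2.2.1), (ω.2.1, ω.2.2.2))
  invFun z := (z.1.1, z.2.1, z.1.2, z.2.2)
  left_inv _ := rfl
  right_inv _ := rfl

omit [AddCommGroup G] [Fintype G] in
theorem P4_12 (p q : G → ℝ) (ω : G × G × G × G) :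
    P4 p q ω = pr (pr p q) (pr p q) (e12 G ω) := rfl

omit [AddCommGroup G] [Fintype G] in
theorem P4_14 (p q : G → ℝ) (ω : G × G × G × G) :
    P4 p q ω = pr (pr p q) (pr q p) (e14 G ω) := by
  show p ω.1 * q ω.2.1 * (p ω.2.2.1 * q ω.2.2.2) = p ω.1 * q ω.2.2.2 * (q ω.2.1 * p ω.2.2.1)
  ring

omit [AddCommGroup G] [Fintype G] in
theorem P4_13 (p q : G → ℝ) (ω : G × G × G × G) :
    P4 p q ω = pr (pr p p) (pr q q) (e13 G ω) := by
  show p ω.1 * q ω.2.1 * (p ω.2.2.1 * q ω.2.2.2) = p ω.1 * p ω.2.2.1 * (q ω.2.1 * q ω.2.2.2)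
  ring

omit [AddCommGroup G] in
/-- laws and entropies of pairs for the pairing `12` -/
theorem H12 {S T : Type*} [Fintype S] [Fintype T] (hp : IsProb p) (hq : IsProb q)
    (X : G × G → S) (Y : G × G → T) :
    H (P4 p q) (fun ω => (X (ω.1, ω.2.1), Y (ω.2.2.1, ω.2.2.2))) = H (pr p q) X + H (pr p q) Y := by
  refine (H_equiv (e12 G) (P4_12 p q) (X := fun z => (X z.1, Y z.2)) (fun ω => rfl)).trans ?_
  exact H_pr_pair (isProb_pr hp hq) (isProb_pr hp hq) X Y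

omit [AddCommGroup G] in
theorem H14 {S T : Type*} [Fintype S] [Fintype T] (hp : IsProb p) (hq : IsProb q)
    (X : G × G → S) (Y : G × G → T) :
    H (P4 p q) (fun ω => (X (ω.1, ω.2.2.2), Y (ω.2.1, ω.2.2.1))) = H (pr p q) X + H (pr q p) Y := by
  refine (H_equiv (e14 G) (P4_14 p q) (X := fun z => (X z.1, Y z.2)) (fun ω => rfl)).trans ?_
  exact H_pr_pair (isProb_pr hp hq) (isProb_pr hq hp) X Y

omit [AddCommGroup G] in
theorem H13 {S T : Type*} [Fintype S] [Fintype T] (hp : IsProb p) (hq : IsProb q)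
    (X : G × G → S) (Y : G × G → T) :
    H (P4 p q) (fun ω => (X (ω.1, ω.2.2.1), Y (ω.2.1, ω.2.2.2))) = H (pr p p) X + H (pr q q) Y := by
  refine (H_equiv (e13 G) (P4_13 p q) (X := fun z => (X z.1, Y z.2)) (fun ω => rfl)).trans ?_
  exact H_pr_pair (isProb_pr hp hp) (isProb_pr hq hq) X Y

/-- conditional independence, abstractly: `A` a function of the first pair, `B` of the second pair -/
theorem ci {Ω Ω₁ Ω₂ S T J K : Type*} [Fintype Ω] [Fintype Ω₁] [Fintype Ω₂] {P : Ω → ℝ}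
    {P₁ : Ω₁ → ℝ} {P₂ : Ω₂ → ℝ} (e : Ω ≃ Ω₁ × Ω₂) (hP : ∀ ω, P ω = pr P₁ P₂ (e ω))
    (A : Ω₁ → S) (B : Ω₂ → T) (C : Ω₁ → J) (D : Ω₂ → K) (a : S) (b : T) (c : J × K) :
    law P (fun ω => (A (e ω).1, B (e ω).2, (C (e ω).1, D (e ω).2))) (a, b, c) *
        law P (fun ω => (C (e ω).1, D (e ω).2)) c =
      law P (fun ω => (A (e ω).1, (C (e ω).1, D (e ω).2))) (a, c) *
        law P (fun ω => (B (e ω).2, (C (e ω).1, D (e ω).2))) (b, c) := by
  classical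
  obtain ⟨c, d⟩ := c
  have h1 : law P (fun ω => (A (e ω).1, B (e ω).2, (C (e ω).1, D (e ω).2))) (a, b, (c, d)) =
      law P₁ (fun z => (A z, C z)) (a, c) * law P₂ (fun z => (B z, D z)) (b, d) := by
    rw [← law_pr_pair, ← law_equiv e hP
      (X' := fun ω => ((A (e ω).1, C (e ω).1), (B (e ω).2, D (e ω).2))) (fun ω => rfl)]
    refine law_congr (fun ω => ?_)
    simp only [Prod.mk.injEq]
    tauto
  have h2 : law P (fun ω => (C (e ω).1, D (e ω).2)) (c, d) = law P₁ C c * law P₂ D d := by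
    rw [← law_pr_pair, ← law_equiv e hP (X' := fun ω => (C (e ω).1, D (e ω).2)) (fun ω => rfl)]
  have h3 : law P (fun ω => (A (e ω).1, (C (e ω).1, D (e ω).2))) (a, (c, d)) =
      law P₁ (fun z => (A z, C z)) (a, c) * law P₂ D d := by
    rw [← law_pr_pair, ← law_equiv e hP
      (X' := fun ω => ((A (e ω).1, C (e ω).1), D (e ω).2)) (fun ω => rfl)]
    refine law_congr (fun ω => ?_)
    simp only [Prod.mk.injEq]
    tauto
  have h4 : law P (fun ω => (B (e ω).2, (C (e ω).1, D (e ω).2))) (b, (c, d)) =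
      law P₁ C c * law P₂ (fun z => (B z, D z)) (b, d) := by
    rw [← law_pr_pair, ← law_equiv e hP
      (X' := fun ω => (C (e ω).1, (B (e ω).2, D (e ω).2))) (fun ω => rfl)]
    refine law_congr (fun ω => ?_)
    simp only [Prod.mk.injEq]
    tauto
  rw [h1, h2, h3, h4]
  ring

end Tab

open Tab

variable {G : Type*} [AddCommGroup G] [Fintype G] {p q : G → ℝ}

theorem isProb_P4 (hp : IsProb p) (hq : IsProb q) : IsProb (P4 p q) :=
  isProb_equiv (e12 G) (P4_12 p q) (isProb_pr (isProb_pr hp hq) (isProb_pr hp hq))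

theorem law_P4_X1 (hp : IsProb p) (hq : IsProb q) : law (P4 p q) (fun ω => ω.1) = p := by
  refine (law_equiv (e12 G) (P4_12 p q) (X := fun z => z.1.1) (fun ω => rfl)).trans ?_
  exact (law_pr_fst _ (isProb_pr hp hq) (fun z : G × G => z.1)).trans (law_pr_one hq)

theorem law_P4_X2 (hp : IsProb p) (hq : IsProb q) : law (P4 p q) (fun ω => ω.2.1) = q := by
  refine (law_equiv (e12 G) (P4_12 p q) (X := fun z => z.1.2) (fun ω => rfl)).trans ?_
  exact (law_pr_fst _ (isProb_pr hp hq) (fun z : G × G => z.2)).trans (law_pr_two hp)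

theorem law_P4_U (hp : IsProb p) (hq : IsProb q) :
    law (P4 p q) (fun ω => ω.1 + ω.2.1) = conv p q := by
  refine (law_equiv (e12 G) (P4_12 p q) (X := fun z => z.1.1 + z.1.2) (fun ω => rfl)).trans ?_
  exact (law_pr_fst _ (isProb_pr hp hq) (fun z : G × G => z.1 + z.2)).trans (law_pr_add hp hq)

theorem law_P4_V (hp : IsProb p) (hq : IsProb q) :
    law (P4 p q) (fun ω => ω.2.2.1 + ω.2.1) = conv p q := by
  refine (law_equiv (e14 G) (P4_14 p q) (X := fun z => z.2.1 + z.2.2)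
    (fun ω => add_comm _ _)).trans ?_
  refine (law_pr_snd _ (isProb_pr hp hq) (fun z : G × G => z.1 + z.2)).trans ?_
  rw [law_pr_add hq hp, conv_comm]

theorem law_P4_W (hp : IsProb p) (hq : IsProb q) :
    law (P4 p q) (fun ω => ω.1 + ω.2.2.1) = conv p p := by
  refine (law_equiv (e13 G) (P4_13 p q) (X := fun z => z.1.1 + z.1.2) (fun ω => rfl)).trans ?_
  exact (law_pr_fst _ (isProb_pr hq hq) (fun z : G × G => z.1 + z.2)).trans (law_pr_add hp hp)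

theorem law_P4_W' (hp : IsProb p) (hq : IsProb q) :
    law (P4 p q) (fun ω => ω.2.1 + ω.2.2.2) = conv q q := by
  refine (law_equiv (e13 G) (P4_13 p q) (X := fun z => z.2.1 + z.2.2) (fun ω => rfl)).trans ?_
  exact (law_pr_snd _ (isProb_pr hp hp) (fun z : G × G => z.1 + z.2)).trans (law_pr_add hq hq)

theorem law_P4_S (hp : IsProb p) (hq : IsProb q) :
    law (P4 p q) (fun ω => ω.1 + ω.2.1 + (ω.2.2.1 + ω.2.2.2)) = conv (conv p q) (conv p q) := by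
  have h12 := isProb_pr hp hq
  refine (law_equiv (e12 G) (P4_12 p q) (X := fun z => (z.1.1 + z.1.2) + (z.2.1 + z.2.2))
    (fun ω => rfl)).trans ?_
  refine (law_add (P := pr (pr p q) (pr p q)) (fun z : (G × G) × (G × G) => z.1.1 + z.1.2)
    (fun z => z.2.1 + z.2.2) (fun a b => ?_)).trans ?_
  · rw [law_pr_pair (pr p q) (pr p q) (fun z : G × G => z.1 + z.2) (fun z : G × G => z.1 + z.2),
      law_pr_fst _ h12 (fun z : G × G => z.1 + z.2), law_pr_snd _ h12 (fun z : G × G => z.1 + z.2)]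
  · rw [law_pr_fst _ h12 (fun z : G × G => z.1 + z.2), law_pr_snd _ h12 (fun z : G × G => z.1 + z.2),
      law_pr_add hp hq]

theorem H_P4_US (hp : IsProb p) (hq : IsProb q) :
    H (P4 p q) (fun ω => (ω.1 + ω.2.1, ω.1 + ω.2.1 + (ω.2.2.1 + ω.2.2.2))) =
      2 * ent (conv p q) := by
  have h1 : H (P4 p q) (fun ω => (ω.1 + ω.2.1, ω.1 + ω.2.1 + (ω.2.2.1 + ω.2.2.2))) =
      H (P4 p q) (fun ω => (ω.1 + ω.2.1, ω.2.2.1 + ω.2.2.2)) := by
    apply H_eq_of_ker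
    intro ω ω' _ _
    simp only [Prod.mk.injEq]
    constructor
    · rintro ⟨h1, h2⟩
      rw [h1] at h2
      exact ⟨h1, add_left_cancel h2⟩
    · rintro ⟨h1, h2⟩
      rw [h1, h2]
      exact ⟨rfl, rfl⟩
  rw [h1, H12 hp hq (fun z : G × G => z.1 + z.2) (fun z : G × G => z.1 + z.2), H_pr_add hp hq]
  ring

theorem H_P4_VS (hp : IsProb p) (hq : IsProb q) :
    H (P4 p q) (fun ω => (ω.2.2.1 + ω.2.1, ω.1 + ω.2.1 + (ω.2.2.1 + ω.2.2.2))) =
      2 * ent (conv p q) := by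
  have e : ∀ ω : G × G × G × G, ω.1 + ω.2.1 + (ω.2.2.1 + ω.2.2.2) =
      (ω.2.2.1 + ω.2.1) + (ω.1 + ω.2.2.2) := fun ω => by abel
  have h1 : H (P4 p q) (fun ω => (ω.2.2.1 + ω.2.1, ω.1 + ω.2.1 + (ω.2.2.1 + ω.2.2.2))) =
      H (P4 p q) (fun ω => (ω.1 + ω.2.2.2, ω.2.1 + ω.2.2.1)) := by
    apply H_eq_of_ker
    intro ω ω' _ _
    simp only [Prod.mk.injEq]
    rw [e, e, add_comm ω.2.1, add_comm ω'.2.1]
    constructor
    · rintro ⟨h1, h2⟩
      rw [h1] at h2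
      exact ⟨add_left_cancel h2, h1⟩
    · rintro ⟨h1, h2⟩
      rw [h1, h2]
      exact ⟨rfl, rfl⟩
  rw [h1, H14 hp hq (fun z : G × G => z.1 + z.2) (fun z : G × G => z.1 + z.2), H_pr_add hp hq, H_pr_add hq hp,
    conv_comm q p]
  ring

theorem H_P4_WS (hp : IsProb p) (hq : IsProb q) :
    H (P4 p q) (fun ω => (ω.1 + ω.2.2.1, ω.1 + ω.2.1 + (ω.2.2.1 + ω.2.2.2))) =
      ent (conv p p) + ent (conv q q) := by
  have e : ∀ ω : G × G × G × G, ω.1 + ω.2.1 + (ω.2.2.1 + ω.2.2.2) =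
      (ω.1 + ω.2.2.1) + (ω.2.1 + ω.2.2.2) := fun ω => by abel
  have h1 : H (P4 p q) (fun ω => (ω.1 + ω.2.2.1, ω.1 + ω.2.1 + (ω.2.2.1 + ω.2.2.2))) =
      H (P4 p q) (fun ω => (ω.1 + ω.2.2.1, ω.2.1 + ω.2.2.2)) := by
    apply H_eq_of_ker
    intro ω ω' _ _
    simp only [Prod.mk.injEq]
    rw [e, e]
    constructor
    · rintro ⟨h1, h2⟩
      rw [h1] at h2
      exact ⟨h1, add_left_cancel h2⟩
    · rintro ⟨h1, h2⟩
      rw [h1, h2]
      exact ⟨rfl, rfl⟩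
  rw [h1, H13 hp hq (fun z : G × G => z.1 + z.2) (fun z : G × G => z.1 + z.2), H_pr_add hp hp, H_pr_add hq hq]

/-- entropies needed for `dref` in the case (b) -/
theorem H_P4_b (hp : IsProb p) (hq : IsProb q) :
    H (P4 p q) (fun ω => (ω.1 + ω.2.2.2, ω.2.1 + ω.2.2.1)) = 2 * ent (conv p q) ∧
    H (P4 p q) (fun ω => (ω.1, ω.1 + ω.2.2.2, ω.2.1 + ω.2.2.1)) = ent p + ent q + ent (conv p q) ∧
    H (P4 p q) (fun ω => (ω.2.1, ω.1 + ω.2.2.2, ω.2.1 + ω.2.2.1)) = ent p + ent q + ent (conv p q) := by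
  refine ⟨?_, ?_, ?_⟩
  · rw [H14 hp hq (fun z : G × G => z.1 + z.2) (fun z : G × G => z.1 + z.2), H_pr_add hp hq, H_pr_add hq hp,
      conv_comm q p]
    ring
  · have h1 : H (P4 p q) (fun ω => (ω.1, ω.1 + ω.2.2.2, ω.2.1 + ω.2.2.1)) =
        H (P4 p q) (fun ω => ((ω.1, ω.1 + ω.2.2.2), ω.2.1 + ω.2.2.1)) := by
      apply H_eq_of_ker
      intro ω ω' _ _
      simp only [Prod.mk.injEq]
      tauto
    rw [h1, H14 hp hq (fun z : G × G => (z.1, z.1 + z.2)) (fun z : G × G => z.1 + z.2), H_pr_one_add hp hq,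
      H_pr_add hq hp, conv_comm q p]
  · have h1 : H (P4 p q) (fun ω => (ω.2.1, ω.1 + ω.2.2.2, ω.2.1 + ω.2.2.1)) =
        H (P4 p q) (fun ω => (ω.1 + ω.2.2.2, (ω.2.1, ω.2.1 + ω.2.2.1))) := by
      apply H_eq_of_ker
      intro ω ω' _ _
      simp only [Prod.mk.injEq]
      tauto
    rw [h1, H14 hp hq (fun z : G × G => z.1 + z.2) (fun z : G × G => (z.1, z.1 + z.2)), H_pr_one_add hq hp,
      H_pr_add hp hq]
    ring

/-- entropies needed for `dref` in the case (d) -/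
theorem H_P4_d (hp : IsProb p) (hq : IsProb q) :
    H (P4 p q) (fun ω => (ω.1 + ω.2.2.1, ω.2.1 + ω.2.2.2)) = ent (conv p p) + ent (conv q q) ∧
    H (P4 p q) (fun ω => (ω.1, ω.1 + ω.2.2.1, ω.2.1 + ω.2.2.2)) = 2 * ent p + ent (conv q q) ∧
    H (P4 p q) (fun ω => (ω.2.1, ω.1 + ω.2.2.1, ω.2.1 + ω.2.2.2)) = 2 * ent q + ent (conv p p) := by
  refine ⟨?_, ?_, ?_⟩
  · rw [H13 hp hq (fun z : G × G => z.1 + z.2) (fun z : G × G => z.1 + z.2), H_pr_add hp hp, H_pr_add hq hq]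
  · have h1 : H (P4 p q) (fun ω => (ω.1, ω.1 + ω.2.2.1, ω.2.1 + ω.2.2.2)) =
        H (P4 p q) (fun ω => ((ω.1, ω.1 + ω.2.2.1), ω.2.1 + ω.2.2.2)) := by
      apply H_eq_of_ker
      intro ω ω' _ _
      simp only [Prod.mk.injEq]
      tauto
    rw [h1, H13 hp hq (fun z : G × G => (z.1, z.1 + z.2)) (fun z : G × G => z.1 + z.2), H_pr_one_add hp hp,
      H_pr_add hq hq]
    ring
  · have h1 : H (P4 p q) (fun ω => (ω.2.1, ω.1 + ω.2.2.1, ω.2.1 + ω.2.2.2)) =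
        H (P4 p q) (fun ω => (ω.1 + ω.2.2.1, (ω.2.1, ω.2.1 + ω.2.2.2))) := by
      apply H_eq_of_ker
      intro ω ω' _ _
      simp only [Prod.mk.injEq]
      tauto
    rw [h1, H13 hp hq (fun z : G × G => z.1 + z.2) (fun z : G × G => (z.1, z.1 + z.2)), H_pr_one_add hq hq,
      H_pr_add hp hp]
    ring

/-- the pair `(X₁, X₂)` given `C = (X₁ + X₂', X₂ + X₁')`: `dcond_indep` (conditionally independent because `(X₁,X₂')` and `(X₂,X₁')` are
independent), `H(X₁+X₂, C) = H(U,V,S)` (`H_eq_of_ker`), `H(X₁,C) = H(X₂,C) = ent p + ent q + ent (conv p q)` -/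
theorem dcond_P4_b (h2 : ∀ x : G, x + x = 0) (hp : IsProb p) (hq : IsProb q) :
    dcond (P4 p q) (fun ω => ω.1) (fun ω => ω.2.1) (fun ω => (ω.1 + ω.2.2.2, ω.2.1 + ω.2.2.1)) =
      H (P4 p q) (fun ω => (ω.1 + ω.2.1, ω.2.2.1 + ω.2.1, ω.1 + ω.2.1 + (ω.2.2.1 + ω.2.2.2))) -
        (ent p + ent q + ent (conv p q)) := by
  have _ := h2
  rw [dcond_indep (isProb_P4 hp hq) (fun ω => ω.1) (fun ω => ω.2.1)
    (fun ω => (ω.1 + ω.2.2.2, ω.2.1 + ω.2.2.1)) (fun a b c =>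
      ci (e14 G) (P4_14 p q) (fun z => z.1) (fun z => z.1) (fun z => z.1 + z.2)
        (fun z => z.1 + z.2) a b c)]
  obtain ⟨-, e2, e3⟩ := H_P4_b hp hq
  rw [e2, e3]
  have h1 : H (P4 p q) (fun ω => (ω.1 + ω.2.1, ω.1 + ω.2.2.2, ω.2.1 + ω.2.2.1)) =
      H (P4 p q) (fun ω => (ω.1 + ω.2.1, ω.2.2.1 + ω.2.1,
        ω.1 + ω.2.1 + (ω.2.2.1 + ω.2.2.2))) := by
    have e : ∀ ω : G × G × G × G, ω.1 + ω.2.1 + (ω.2.2.1 + ω.2.2.2) =
        (ω.2.2.1 + ω.2.1) + (ω.1 + ω.2.2.2) := fun ω => by abel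
    apply H_eq_of_ker
    intro ω ω' _ _
    simp only [Prod.mk.injEq]
    rw [e, e, add_comm ω.2.1 ω.2.2.1, add_comm ω'.2.1 ω'.2.2.1]
    constructor
    · rintro ⟨h1, h2, h3⟩
      rw [h2, h3]
      exact ⟨h1, rfl, rfl⟩
    · rintro ⟨h1, h2, h3⟩
      rw [h2] at h3
      exact ⟨h1, add_left_cancel h3, h2⟩
  rw [← h1]
  ring

/-- the pair `(X₁, X₂)` given `C = (X₁ + X₁', X₂ + X₂')`: `dcond_indep`; `H(X₁+X₂, C) = H(U,V,S)` by `H_eq_of_ker` (exponent 2: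
`V = U + (X₁+X₁')`), `H(X₁,C) = 2 ent p + ent (conv q q)`, `H(X₂,C) = 2 ent q + ent (conv p p)` -/
theorem dcond_P4_d (h2 : ∀ x : G, x + x = 0) (hp : IsProb p) (hq : IsProb q) :
    dcond (P4 p q) (fun ω => ω.1) (fun ω => ω.2.1) (fun ω => (ω.1 + ω.2.2.1, ω.2.1 + ω.2.2.2)) =
      H (P4 p q) (fun ω => (ω.1 + ω.2.1, ω.2.2.1 + ω.2.1, ω.1 + ω.2.1 + (ω.2.2.1 + ω.2.2.2))) -
        (ent p + ent q) - (ent (conv p p) + ent (conv q q)) / 2 := by
  rw [dcond_indep (isProb_P4 hp hq) (fun ω => ω.1) (fun ω => ω.2.1)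
    (fun ω => (ω.1 + ω.2.2.1, ω.2.1 + ω.2.2.2)) (fun a b c =>
      ci (e13 G) (P4_13 p q) (fun z => z.1) (fun z => z.1) (fun z => z.1 + z.2)
        (fun z => z.1 + z.2) a b c)]
  obtain ⟨-, e2, e3⟩ := H_P4_d hp hq
  rw [e2, e3]
  have h1 : H (P4 p q) (fun ω => (ω.1 + ω.2.1, ω.1 + ω.2.2.1, ω.2.1 + ω.2.2.2)) =
      H (P4 p q) (fun ω => (ω.1 + ω.2.1, ω.2.2.1 + ω.2.1,
        ω.1 + ω.2.1 + (ω.2.2.1 + ω.2.2.2))) := by
    have e : ∀ ω : G × G × G × G, ω.1 + ω.2.1 + (ω.2.2.1 + ω.2.2.2) =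
        (ω.1 + ω.2.2.1) + (ω.2.1 + ω.2.2.2) := fun ω => by abel
    have e' : ∀ ω : G × G × G × G, ω.2.2.1 + ω.2.1 = (ω.1 + ω.2.1) + (ω.1 + ω.2.2.1) := by
      intro ω
      have h3 : (ω.1 + ω.2.1) + (ω.1 + ω.2.2.1) = ω.2.2.1 + ω.2.1 + (ω.1 + ω.1) := by abel
      rw [h3, h2, add_zero]
    apply H_eq_of_ker
    intro ω ω' _ _
    simp only [Prod.mk.injEq]
    rw [e, e, e', e']
    constructor
    · rintro ⟨h1, h2, h3⟩
      rw [h1, h2, h3]
      exact ⟨rfl, rfl, rfl⟩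
    · rintro ⟨h1, h2, h3⟩
      rw [h1] at h2
      have h4 := add_left_cancel h2
      rw [h4] at h3
      exact ⟨h1, h4, add_left_cancel h3⟩
  rw [← h1]
  ring

end Pool.Agent.PFR
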